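import Mathlib

/-!
# Cutting a branching program
-/

set_option autoImplicit false

open MvPolynomial Finset

namespace Pool.Agent.V7H63.Gad

universe u v

section run

variable {A : Type u} [CommRing A] (w : ℕ → ℕ) (M : ∀ l, Fin (w l) → Fin (w (l + 1)) → A)

/-- run `d` steps of a branching program, starting with a row vector in layer `l` -/
def run : ∀ (d l : ℕ), (Fin (w l) → A) → A
  | 0, _, a => ∑ v, a v
  | d + 1, l, a => run d (l + 1) fun v => ∑ u, a u * M l u v

lemma run_add (d l : ℕ) (a b : Fin (w l) → A) :
    run w M d l (a + b) = run w M d l a + run w M d l b := by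
  induction d generalizing l with
  | zero =>
    rw [run, run, run, ← Finset.sum_add_distrib]
    rfl
  | succ d ih =>
    rw [run, run, run, ← ih]
    congr 1
    funext v
    rw [Pi.add_apply, ← Finset.sum_add_distrib]
    apply Finset.sum_congr rfl
    intro u _
    rw [Pi.add_apply, add_mul]

lemma run_smul (d l : ℕ) (p : A) (a : Fin (w l) → A) :
    run w M d l (p • a) = p * run w M d l a := by
  induction d generalizing l with
  | zero =>
    rw [run, run, Finset.mul_sum]
    rfl
  | succ d ih =>
    rw [run, run, ← ih]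
    congr 1
    funext v
    rw [Pi.smul_apply, smul_eq_mul, Finset.mul_sum]
    apply Finset.sum_congr rfl
    intro u _
    rw [Pi.smul_apply, smul_eq_mul, mul_assoc]

lemma run_zero (d l : ℕ) : run w M d l 0 = 0 := by
  have h := run_smul w M d l 0 0
  rwa [zero_smul, zero_mul] at h

lemma run_eq_sum (d l : ℕ) (a : Fin (w l) → A) :
    run w M d l a = ∑ v, a v * run w M d l (Pi.single v 1) := by
  classical
  have h1 : ∀ s : Finset (Fin (w l)), run w M d l (∑ v ∈ s, a v • Pi.single v 1) =
      ∑ v ∈ s, a v * run w M d l (Pi.single v 1) := by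
    intro s
    induction s using Finset.induction_on with
    | empty => rw [Finset.sum_empty, Finset.sum_empty, run_zero]
    | insert v s hv ih =>
      rw [Finset.sum_insert hv, Finset.sum_insert hv, run_add, ih, run_smul]
  rw [← h1]
  congr 1
  funext v
  rw [Finset.sum_apply, Finset.sum_eq_single v]
  · rw [Pi.smul_apply, Pi.single_eq_same, smul_eq_mul, mul_one]
  · intro u _ hu
    rw [Pi.smul_apply, Pi.single_eq_of_ne hu.symm, smul_zero]
  · intro h
    exact absurd (Finset.mem_univ _) h

lemma map_run {A' : Type v} [CommRing A'] (φ : A →+* A') (d l : ℕ) (a : Fin (w l) → A) :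
    φ (run w M d l a) = run w (fun l u v => φ (M l u v)) d l (fun v => φ (a v)) := by
  induction d generalizing l with
  | zero =>
    rw [run, run, map_sum]
  | succ d ih =>
    rw [run, run, ih]
    congr 1
    funext v
    rw [map_sum]
    apply Finset.sum_congr rfl
    intro u _
    rw [map_mul]

end run

section dec

variable {V : Type} {K : Type u} [Field K] (z : V → K)

/-- a sum of few products of polynomials which vanish at a point, and a polynomial of low
degree -/
def Dec (Φ : MvPolynomial V K) (n g : ℕ) : Prop :=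
  ∃ L : List (MvPolynomial V K × MvPolynomial V K), L.length ≤ n ∧
    (∀ x ∈ L, eval z x.1 = 0 ∧ eval z x.2 = 0) ∧
    ∃ R : MvPolynomial V K, R.totalDegree ≤ g ∧ Φ = (L.map fun x => x.1 * x.2).sum + R

lemma dec_low (Φ : MvPolynomial V K) (n g : ℕ) (h : Φ.totalDegree ≤ g) : Dec z Φ n g :=
  ⟨[], Nat.zero_le _, by simp, Φ, h, by simp⟩

lemma Dec.add {Φ R : MvPolynomial V K} {n g : ℕ} (h : Dec z Φ n g) (hR : R.totalDegree ≤ g) :
    Dec z (Φ + R) n g := by
  obtain ⟨L, h1, h2, R', h3, rfl⟩ := h
  exact ⟨L, h1, h2, R' + R, (totalDegree_add _ _).trans (max_le h3 hR), by ring⟩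

lemma Dec.append {Φ : MvPolynomial V K} {n g : ℕ} (h : Dec z Φ n g)
    (L : List (MvPolynomial V K × MvPolynomial V K))
    (hL : ∀ x ∈ L, eval z x.1 = 0 ∧ eval z x.2 = 0) :
    Dec z ((L.map fun x => x.1 * x.2).sum + Φ) (L.length + n) g := by
  obtain ⟨L', h1, h2, R', h3, rfl⟩ := h
  refine ⟨L ++ L', ?_, ?_, R', h3, ?_⟩
  · rw [List.length_append]
    omega
  · intro x hx
    rcases List.mem_append.1 hx with h | h
    · exact hL x h
    · exact h2 x h
  · rw [List.map_append, List.sum_append]
    ring

lemma succ_mod (m g : ℕ) (hg : 1 ≤ g) :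
    ((m + 1) % g = 0 ∧ m % g + 1 = g) ∨ ((m + 1) % g ≠ 0 ∧ (m + 1) % g = m % g + 1) := by
  have h1 := Nat.mod_lt m hg
  have h2 : (m + 1) % g = (m % g + 1) % g := by rw [Nat.mod_add_mod]
  by_cases h : m % g + 1 = g
  · left
    rw [h2, h, Nat.mod_self]
    exact ⟨rfl, rfl⟩
  · right
    have h3 : (m % g + 1) % g = m % g + 1 := Nat.mod_eq_of_lt (by omega)
    rw [h2, h3]
    omega

lemma totalDegree_sum_le {I : Type*} (s : Finset I) (f : I → MvPolynomial V K) (d : ℕ)
    (h : ∀ i ∈ s, (f i).totalDegree ≤ d) : (∑ i ∈ s, f i).totalDegree ≤ d := by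
  refine (totalDegree_finset_sum _ _).trans ?_
  exact Finset.sup_le h

variable (w : ℕ → ℕ) (M : ∀ l, Fin (w l) → Fin (w (l + 1)) → MvPolynomial V K)

/-- **The cutting lemma.** -/
lemma dec_run (Δ : ℕ) (hM : ∀ l u v, (M l u v).totalDegree ≤ Δ) (g s : ℕ) (hg : 1 ≤ g)
    (d l : ℕ) (a : Fin (w l) → MvPolynomial V K)
    (ha : ∀ v, (a v).totalDegree ≤ Δ * (1 + (l + s) % g)) :
    Dec z (run w M d l a)
      (∑ i ∈ Finset.range d, if (l + i + s + 1) % g = 0 then w (l + i) else 0) (Δ * g) := by
  have hle : ∀ l', Δ * (1 + (l' + s) % g) ≤ Δ * g := by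
    intro l'
    apply Nat.mul_le_mul_left
    have := Nat.mod_lt (l' + s) hg
    omega
  induction d generalizing l with
  | zero =>
    apply dec_low
    rw [run]
    apply totalDegree_sum_le
    intro v _
    exact (ha v).trans (hle l)
  | succ d ih =>
    rw [Finset.sum_range_succ', add_zero]
    have hshift : ∑ i ∈ Finset.range d, (if (l + (i + 1) + s + 1) % g = 0 then
        w (l + (i + 1)) else 0) =
        ∑ i ∈ Finset.range d, if (l + 1 + i + s + 1) % g = 0 then w (l + 1 + i) else 0 := by
      apply Finset.sum_congr rfl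
      intro i _
      have h1 : l + (i + 1) = l + 1 + i := by ring
      rw [h1]
    rw [hshift]
    rcases succ_mod (l + s) g hg with ⟨h1, h2⟩ | ⟨h1, h2⟩
    · rw [if_pos h1]
      set B : Fin (w l) → MvPolynomial V K := fun v => run w M (d + 1) l (Pi.single v 1) with hB
      have h3 : run w M (d + 1) l a =
          ((List.ofFn fun v => (a v - C (eval z (a v)), B v - C (eval z (B v)))).map
            fun x => x.1 * x.2).sum +
          (run w M (d + 1) l (fun v => C (eval z (a v))) +
            (∑ v, C (eval z (B v)) * a v - ∑ v, C (eval z (a v) * eval z (B v)))) := by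
        rw [run_eq_sum w M (d + 1) l a, run_eq_sum w M (d + 1) l fun v => C (eval z (a v)),
          List.map_ofFn, List.sum_ofFn, ← Finset.sum_sub_distrib, ← Finset.sum_add_distrib,
          ← Finset.sum_add_distrib]
        apply Finset.sum_congr rfl
        intro v _
        simp only [Function.comp, hB, map_mul]
        ring
      rw [h3]
      have h4 : (∑ i ∈ Finset.range d, if (l + 1 + i + s + 1) % g = 0 then w (l + 1 + i) else 0) +
          w l = (List.ofFn fun v => (a v - C (eval z (a v)), B v - C (eval z (B v)))).length +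
          ∑ i ∈ Finset.range d, if (l + 1 + i + s + 1) % g = 0 then w (l + 1 + i) else 0 := by
        rw [List.length_ofFn, add_comm]
      rw [h4]
      apply Dec.append
      · apply Dec.add
        · rw [run]
          apply ih
          intro v
          apply totalDegree_sum_le
          intro u _
          refine (totalDegree_mul _ _).trans ?_
          rw [totalDegree_C, zero_add]
          refine (hM l u v).trans ?_
          exact Nat.le_mul_of_pos_right _ (by omega)
        · refine (totalDegree_sub _ _).trans (max_le ?_ ?_)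
          · apply totalDegree_sum_le
            intro v _
            refine (totalDegree_mul _ _).trans ?_
            rw [totalDegree_C, zero_add]
            exact (ha v).trans (hle l)
          · apply totalDegree_sum_le
            intro v _
            rw [totalDegree_C]
            exact Nat.zero_le _
      · intro x hx
        rw [List.mem_ofFn] at hx
        obtain ⟨v, rfl⟩ := hx
        simp only [map_sub, eval_C, sub_self, and_self]
    · rw [if_neg h1, add_zero, run]
      apply ih
      intro v
      apply totalDegree_sum_le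
      intro u _
      refine (totalDegree_mul _ _).trans ?_
      have h3 := ha u
      have h4 := hM l u v
      have h5 : l + 1 + s = l + s + 1 := by ring
      have h6 : Δ * (1 + (l + 1 + s) % g) = Δ * (1 + (l + s) % g) + Δ := by
        rw [h5, h2]
        ring
      rw [h6]
      omega

lemma exists_class (g d : ℕ) (hg : 1 ≤ g) (f : ℕ → ℕ) : ∃ s, g *
    (∑ i ∈ Finset.range d, if (1 + i + s + 1) % g = 0 then f (1 + i) else 0) ≤
      ∑ i ∈ Finset.range d, f (1 + i) := by
  by_contra hcon
  push Not at hcon
  have h1 : ∑ s ∈ Finset.range g, ∑ i ∈ Finset.range d, f (1 + i) <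
      ∑ s ∈ Finset.range g, g *
        (∑ i ∈ Finset.range d, if (1 + i + s + 1) % g = 0 then f (1 + i) else 0) := by
    apply Finset.sum_lt_sum_of_nonempty
    · exact ⟨0, Finset.mem_range.2 hg⟩
    · intro s _
      exact hcon s
  rw [Finset.sum_const, Finset.card_range, smul_eq_mul, ← Finset.mul_sum, Finset.sum_comm] at h1
  have h2 : ∑ i ∈ Finset.range d, ∑ s ∈ Finset.range g,
      (if (1 + i + s + 1) % g = 0 then f (1 + i) else 0) ≤ ∑ i ∈ Finset.range d, f (1 + i) := by
    apply Finset.sum_le_sum
    intro i _
    rw [← Finset.sum_filter, Finset.sum_const, smul_eq_mul]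
    have h3 : ((Finset.range g).filter fun s => (1 + i + s + 1) % g = 0).card ≤ 1 := by
      rw [Finset.card_le_one]
      intro s hs t ht
      rw [Finset.mem_filter, Finset.mem_range] at hs ht
      have h4 : (1 + i + 1) + s ≡ (1 + i + 1) + t [MOD g] := by
        have h5 : (1 + i + 1) + s = 1 + i + s + 1 := by ring
        have h6 : (1 + i + 1) + t = 1 + i + t + 1 := by ring
        rw [Nat.ModEq, h5, h6, hs.2, ht.2]
      have h5 := Nat.ModEq.add_left_cancel' _ h4
      rw [Nat.ModEq, Nat.mod_eq_of_lt hs.1, Nat.mod_eq_of_lt ht.1] at h5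
      exact h5
    calc _ ≤ 1 * f (1 + i) := Nat.mul_le_mul_right _ h3
      _ = f (1 + i) := one_mul _
  have h3 := Nat.mul_le_mul_left g h2
  omega

/-- **Branching programs are sums of few products, up to low degree.** -/
lemma dec_abp (Δ : ℕ) (hM : ∀ l u v, (M l u v).totalDegree ≤ Δ) (g D : ℕ) (hg : 1 ≤ g) :
    ∃ m, g * m ≤ ∑ i ∈ Finset.range (D - 1), w (1 + i) ∧
      Dec z (run w M D 0 fun _ => 1) m (Δ * g) := by
  rcases D with _ | d
  · refine ⟨0, by simp, ?_⟩
    apply dec_low
    rw [run]
    apply totalDegree_sum_le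
    intro v _
    rw [totalDegree_one]
    exact Nat.zero_le _
  · obtain ⟨s, hs⟩ := exists_class g d hg w
    rw [Nat.add_sub_cancel]
    refine ⟨_, hs, ?_⟩
    rw [run]
    apply dec_run z w M Δ hM g s hg d 1
    intro v
    apply totalDegree_sum_le
    intro u _
    rw [one_mul]
    refine (hM 0 u v).trans ?_
    exact Nat.le_mul_of_pos_right _ (by omega)

end dec

end Pool.Agent.V7H63.Gad
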