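import Pool.Agent.V7H63.Gad.Matrix

/-!
# The degeneration of the windows to elementary symmetric polynomials
-/

set_option autoImplicit false

open MvPolynomial Finset

namespace Pool.Agent.V7H63.Gad

open Pool.Agent.V7H63.Deg

universe u v

section defs

variable {r : ℕ} {R : Type u} [CommRing R]

/-- the variables -/
abbrev Un (r : ℕ) : Type := Fin (r + 1) × Fin r

/-- the square of the difference -/
def sqd (i j : ℕ) : ℕ := ((j : ℤ) - i).natAbs ^ 2

lemma sqd_cast (i j : ℕ) : ((sqd i j : ℕ) : ℤ) = ((j : ℤ) - i) ^ 2 := by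
  rw [sqd, Nat.cast_pow, Int.natCast_natAbs, sq_abs]

/-- the variable in a row and a column -/
noncomputable def chi (R : Type u) [CommRing R] (i : Fin r) (j : ℕ) : MvPolynomial (Un r) R :=
  if h : i.1 ≤ j ∧ j ≤ i.1 + r then X (⟨j - i.1, by omega⟩, i) else 0

/-- the entries of the first matrix -/
noncomputable def xe (e : R) (i : Fin r) (j : ℕ) : MvPolynomial (Un r) R :=
  C (e ^ sqd i j) * chi R i j

/-- the entries of the second matrix -/
noncomputable def Ee (e : R) (i : Fin r) (j : ℕ) : MvPolynomial (Un r) R := C (e ^ sqd i j)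

/-- the rescaled windows -/
noncomputable def Fw (e : R) (δ k : ℕ) : MvPolynomial (Un r) R :=
  ∑ T ∈ Finset.powersetCard k (Finset.univ : Finset (Fin r)), ∑ s : Fin r ≃ Fin r,
    C (e ^ ∑ j : Fin r, sqd (s j) j) * ∏ j, if s j ∈ T then chi R (s j) (δ + j.1) else 1

lemma sum_sqd (s : Fin r ≃ Fin r) (δ : ℕ) :
    ∑ j : Fin r, sqd (s j) (δ + j.1) = r * δ ^ 2 + ∑ j : Fin r, sqd (s j) j := by
  zify
  simp only [sqd_cast]
  have h1 : ∑ j : Fin r, ((s j : ℕ) : ℤ) = ∑ j : Fin r, ((j : ℕ) : ℤ) :=
    Equiv.sum_comp s (fun j : Fin r => ((j : ℕ) : ℤ))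
  have h2 : ∀ j : Fin r, (((δ + j.1 : ℕ) : ℤ) - ((s j : ℕ) : ℤ)) ^ 2 =
      (δ : ℤ) ^ 2 + (2 * δ * ((j : ℕ) : ℤ) - 2 * δ * ((s j : ℕ) : ℤ)) +
        (((j : ℕ) : ℤ) - ((s j : ℕ) : ℤ)) ^ 2 := by
    intro j
    push_cast
    ring
  rw [Finset.sum_congr rfl (fun j _ => h2 j), Finset.sum_add_distrib, Finset.sum_add_distrib,
    Finset.sum_sub_distrib, ← Finset.mul_sum, ← Finset.mul_sum, h1, sub_self, add_zero,
    Finset.sum_const, Finset.card_univ, Fintype.card_fin, nsmul_eq_mul]

/-- the windows are multiples of the rescaled windows -/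
lemma win_eq (e : R) (δ k : ℕ) :
    win (xe e) (Ee e) δ k = C (e ^ (r * δ ^ 2)) * (Fw e δ k : MvPolynomial (Un r) R) := by
  rw [win, Fw, Finset.mul_sum]
  apply Finset.sum_congr rfl
  intro T _
  rw [Finset.mul_sum]
  apply Finset.sum_congr rfl
  intro s _
  have h1 : ∀ j : Fin r, (if s j ∈ T then xe e (s j) (δ + j.1) else Ee e (s j) (δ + j.1)) =
      C (e ^ sqd (s j) (δ + j.1)) * (if s j ∈ T then chi R (s j) (δ + j.1) else 1) := by
    intro j
    rw [xe, Ee]
    split_ifs
    · rfl
    · rw [mul_one]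
  rw [Finset.prod_congr rfl (fun j _ => h1 j), Finset.prod_mul_distrib, ← map_prod,
    Finset.prod_pow_eq_pow_sum, sum_sqd, pow_add, map_mul, mul_assoc]

lemma map_chi {R' : Type v} [CommRing R'] (φ : R →+* R') (i : Fin r) (j : ℕ) :
    map φ (chi R i j) = chi R' i j := by
  rw [chi, chi]
  split_ifs
  · rw [map_X]
  · rw [map_zero]

lemma map_Fw {R' : Type v} [CommRing R'] (φ : R →+* R') (e : R) (δ k : ℕ) :
    map φ (Fw e δ k : MvPolynomial (Un r) R) = Fw (φ e) δ k := by
  rw [Fw, Fw, map_sum]
  apply Finset.sum_congr rfl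
  intro T _
  rw [map_sum]
  apply Finset.sum_congr rfl
  intro s _
  rw [map_mul, map_C, map_pow, map_prod]
  congr 1
  apply Finset.prod_congr rfl
  intro j _
  split_ifs
  · rw [map_chi]
  · rw [map_one]

lemma chi_hom (i : Fin r) (j : ℕ) : (chi R i j).IsHomogeneous 1 := by
  rw [chi]
  split_ifs
  · exact isHomogeneous_X _ _
  · exact isHomogeneous_zero _ _ _

lemma Fw_hom (e : R) (δ k : ℕ) : (Fw e δ k : MvPolynomial (Un r) R).IsHomogeneous k := by
  apply IsHomogeneous.sum
  intro T hT
  apply IsHomogeneous.sum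
  intro s _
  have h1 : (∏ j : Fin r, if s j ∈ T then chi R (s j) (δ + j.1) else 1).IsHomogeneous
      (∑ j : Fin r, if s j ∈ T then 1 else 0) := by
    apply IsHomogeneous.prod
    intro j _
    split_ifs
    · exact chi_hom _ _
    · exact isHomogeneous_one _ _
  have h2 : (∑ j : Fin r, if s j ∈ T then 1 else 0) = k := by
    rw [Equiv.sum_comp s (fun j => if j ∈ T then 1 else 0), Finset.sum_ite_mem,
      Finset.univ_inter, Finset.sum_const, smul_eq_mul, mul_one]
    exact (Finset.mem_powersetCard.1 hT).2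
  rw [h2] at h1
  have h3 := (isHomogeneous_C (Un r) (e ^ ∑ j : Fin r, sqd (s j) j)).mul h1
  rwa [zero_add] at h3

/-- the elementary symmetric polynomial of a row of variables -/
noncomputable def es (R : Type u) [CommRing R] (δ : Fin (r + 1)) (k : ℕ) :
    MvPolynomial (Un r) R :=
  ∑ T ∈ Finset.powersetCard k (Finset.univ : Finset (Fin r)), ∏ j ∈ T, X (δ, j)

lemma Fw_zero (δ : Fin (r + 1)) (k : ℕ) :
    (Fw (0 : R) δ k : MvPolynomial (Un r) R) = es R δ k := by
  rw [Fw, es]
  apply Finset.sum_congr rfl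
  intro T _
  rw [Finset.sum_eq_single (Equiv.refl (Fin r))]
  · have h1 : ∑ j : Fin r, sqd (Equiv.refl (Fin r) j) j = 0 := by
      apply Finset.sum_eq_zero
      intro j _
      simp [sqd]
    rw [h1, pow_zero, map_one, one_mul]
    have h2 : ∀ j : Fin r, (if (Equiv.refl (Fin r)) j ∈ T then
        chi R ((Equiv.refl (Fin r)) j) (δ.1 + j.1) else 1) = if j ∈ T then X (δ, j) else 1 := by
      intro j
      rw [Equiv.refl_apply]
      split_ifs with h
      · rw [chi, dif_pos (by have := δ.2; omega)]
        congr 2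
        ext
        simp
      · rfl
    rw [Finset.prod_congr rfl (fun j _ => h2 j), Finset.prod_ite_mem, Finset.univ_inter]
  · intro s _ hs
    have h1 : ∑ j : Fin r, sqd (s j) j ≠ 0 := by
      intro h
      apply hs
      ext j
      have h2 := (Finset.sum_eq_zero_iff.1 h) j (Finset.mem_univ _)
      rw [sqd] at h2
      have h3 := pow_eq_zero_iff (two_ne_zero) |>.1 h2
      rw [Int.natAbs_eq_zero] at h3
      rw [Equiv.refl_apply]
      omega
    rw [zero_pow h1, map_zero, zero_mul]
  · intro h
    exact absurd (Finset.mem_univ _) h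

/-- the equation of a variable over the elementary symmetric polynomials -/
lemma es_eq (δ : Fin (r + 1)) (c : Fin r) :
    (X (δ, c) : MvPolynomial (Un r) R) ^ r =
      ∑ k ∈ Finset.range r, (-1) ^ k * es R δ (k + 1) * X (δ, c) ^ (r - (k + 1)) := by
  have h1 : ∏ j : Fin r, (-X (δ, j) + X (δ, c) : MvPolynomial (Un r) R) = 0 := by
    apply Finset.prod_eq_zero (Finset.mem_univ c)
    ring
  rw [Finset.prod_add, Finset.sum_powerset, Finset.card_univ, Fintype.card_fin] at h1
  have h2 : ∀ k ∈ Finset.range (r + 1), ∑ T ∈ Finset.powersetCard k (Finset.univ : Finset (Fin r)),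
      (∏ j ∈ T, (-X (δ, j) : MvPolynomial (Un r) R)) * ∏ j ∈ Finset.univ \ T, X (δ, c) =
      (-1) ^ k * es R δ k * X (δ, c) ^ (r - k) := by
    intro k _
    rw [es, Finset.mul_sum, Finset.sum_mul]
    apply Finset.sum_congr rfl
    intro T hT
    have hc := (Finset.mem_powersetCard.1 hT).2
    rw [Finset.prod_const, Finset.card_sdiff, Finset.inter_univ, Finset.card_univ,
      Fintype.card_fin, Finset.prod_neg, hc]
  rw [Finset.sum_congr rfl h2, Finset.sum_range_succ'] at h1
  have h3 : es R δ 0 = 1 := by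
    rw [es, Finset.powersetCard_zero, Finset.sum_singleton, Finset.prod_empty]
  rw [pow_zero, h3, one_mul, one_mul, Nat.sub_zero] at h1
  rw [eq_neg_of_add_eq_zero_right h1, ← Finset.sum_neg_distrib]
  apply Finset.sum_congr rfl
  intro k _
  rw [pow_succ]
  ring

end defs

section nakayama

variable {r : ℕ} {A : Type u} [CommRing A] [IsLocalRing A]

lemma hom_mem_span {R : Type u} [CommRing R] {V : Type} (p : MvPolynomial V R) (d : ℕ)
    (hp : p.IsHomogeneous d) :
    p ∈ Submodule.span R {h : MvPolynomial V R | ∃ β : V →₀ ℕ, β.degree = d ∧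
      h = monomial β 1} := by
  rw [p.as_sum]
  apply Submodule.sum_mem
  intro β hβ
  have h1 : monomial β (coeff β p) = coeff β p • (monomial β (1 : R)) := by
    rw [smul_monomial, smul_eq_mul, mul_one]
  rw [h1]
  apply Submodule.smul_mem
  apply Submodule.subset_span
  refine ⟨β, ?_, rfl⟩
  have h2 := hp (mem_support_iff.1 hβ)
  rw [Finsupp.degree_eq_weight_one]
  exact h2

lemma mem_smul_span {V : Type} (p : MvPolynomial V A) (d : ℕ) (hp : p.IsHomogeneous d)
    (h0 : map (IsLocalRing.residue A) p = 0) :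
    p ∈ IsLocalRing.maximalIdeal A • Submodule.span A {h : MvPolynomial V A | ∃ β : V →₀ ℕ,
      β.degree = d ∧ h = monomial β 1} := by
  rw [p.as_sum]
  apply Submodule.sum_mem
  intro β hβ
  have h1 : monomial β (coeff β p) = coeff β p • (monomial β (1 : A)) := by
    rw [smul_monomial, smul_eq_mul, mul_one]
  rw [h1]
  apply Submodule.smul_mem_smul
  · rw [← IsLocalRing.residue_eq_zero_iff]
    have h2 := congrArg (coeff β) h0
    rwa [coeff_map, coeff_zero] at h2
  · apply Submodule.subset_span
    refine ⟨β, ?_, rfl⟩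
    have h2 := hp (mem_support_iff.1 hβ)
    rw [Finsupp.degree_eq_weight_one]
    exact h2

/-- the critical degree -/
def D1 (r : ℕ) : ℕ := (r + 1) * r * (r - 1) + 1

/-- **All monomials of the critical degree lie in the ideal of the windows.** -/
lemma mono_mem (hr : 1 ≤ r) (e : A) (he : e ∈ IsLocalRing.maximalIdeal A) (β : Un r →₀ ℕ)
    (hβ : β.degree = D1 r) :
    (monomial β (1 : A)) ∈ Submodule.span A {h : MvPolynomial (Un r) A | ∃ (β' : Un r →₀ ℕ)
      (δ : Fin (r + 1)) (k : ℕ), 1 ≤ k ∧ k ≤ r ∧ β'.degree + k = D1 r ∧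
      h = monomial β' 1 * Fw e δ k} := by
  set N := Submodule.span A {h : MvPolynomial (Un r) A | ∃ (β' : Un r →₀ ℕ)
      (δ : Fin (r + 1)) (k : ℕ), 1 ≤ k ∧ k ≤ r ∧ β'.degree + k = D1 r ∧
      h = monomial β' 1 * Fw e δ k} with hN
  set N' := Submodule.span A {h : MvPolynomial (Un r) A | ∃ β : Un r →₀ ℕ,
      β.degree = D1 r ∧ h = monomial β 1} with hN'
  have hfin : {β : Un r →₀ ℕ | β.degree = D1 r}.Finite := by
    apply Set.Finite.subset (Finset.finite_toSet (Finset.finsuppAntidiag (Finset.univ) (D1 r)))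
    intro β hβ
    rw [Finset.mem_coe, Finset.mem_finsuppAntidiag]
    refine ⟨?_, Finset.subset_univ _⟩
    rw [Set.mem_setOf_eq, Finsupp.degree_eq_sum] at hβ
    exact hβ
  have hfg : N'.FG := by
    have h1 : {h : MvPolynomial (Un r) A | ∃ β : Un r →₀ ℕ,
        β.degree = D1 r ∧ h = monomial β 1} =
        (fun β => monomial β (1 : A)) '' {β : Un r →₀ ℕ | β.degree = D1 r} := by
      ext h
      constructor
      · rintro ⟨β, h1, h2⟩
        exact ⟨β, h1, h2.symm⟩
      · rintro ⟨β, h1, h2⟩
        exact ⟨β, h1, h2.symm⟩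
    rw [hN', h1]
    exact Submodule.fg_span (hfin.image _)
  have key : N' ≤ N ⊔ IsLocalRing.maximalIdeal A • N' := by
    conv_lhs => rw [hN']
    rw [Submodule.span_le]
    rintro h ⟨β, hβ, rfl⟩
    rw [SetLike.mem_coe]
    have h1 : ∃ u : Un r, r ≤ β u := by
      by_contra hcon
      push_neg at hcon
      have h2 : β.degree ≤ ∑ u : Un r, (r - 1) := by
        rw [Finsupp.degree_eq_sum]
        apply Finset.sum_le_sum
        intro u _
        have := hcon u
        omega
      rw [Finset.sum_const, Finset.card_univ, Fintype.card_prod, Fintype.card_fin,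
        Fintype.card_fin, smul_eq_mul, hβ, D1] at h2
      omega
    obtain ⟨⟨δ, c⟩, hu⟩ := h1
    set β' := β - Finsupp.single (δ, c) r with hβ'
    have h2 : β = β' + Finsupp.single (δ, c) r := by
      rw [hβ', tsub_add_cancel_of_le]
      rw [Finsupp.single_le_iff]
      exact hu
    have hdeg : β'.degree + r = D1 r := by
      rw [← hβ, h2, map_add, Finsupp.degree_single]
    have h3 : monomial β (1 : A) = monomial β' 1 * X (δ, c) ^ r := by
      rw [X_pow_eq_monomial, monomial_mul, mul_one, ← h2]
    set g : MvPolynomial (Un r) A := ∑ k ∈ Finset.range r,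
      (-1) ^ k * Fw e δ (k + 1) * X (δ, c) ^ (r - (k + 1)) with hg
    have h4 : monomial β' 1 * g ∈ N := by
      rw [hg, Finset.mul_sum]
      apply Submodule.sum_mem
      intro k hk
      rw [Finset.mem_range] at hk
      have h5 : monomial β' 1 * ((-1) ^ k * Fw e δ (k + 1) * X (δ, c) ^ (r - (k + 1))) =
          ((-1) ^ k : A) • (monomial (β' + Finsupp.single (δ, c) (r - (k + 1))) 1 *
            Fw e δ (k + 1)) := by
        have h7 : (C ((-1) ^ k : A) : MvPolynomial (Un r) A) = (-1) ^ k := by
          rw [map_pow, map_neg, map_one]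
        rw [smul_eq_C_mul, h7, X_pow_eq_monomial]
        have h6 : monomial (β' + Finsupp.single (δ, c) (r - (k + 1))) (1 : A) =
            monomial β' 1 * monomial (Finsupp.single (δ, c) (r - (k + 1))) 1 := by
          rw [monomial_mul, mul_one]
        rw [h6]
        ring
      rw [h5]
      apply Submodule.smul_mem
      apply Submodule.subset_span
      refine ⟨_, δ, k + 1, by omega, by omega, ?_, rfl⟩
      rw [map_add, Finsupp.degree_single]
      omega
    have h5 : monomial β' 1 * X (δ, c) ^ r - monomial β' 1 * g ∈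
        IsLocalRing.maximalIdeal A • N' := by
      apply mem_smul_span
      · have h6 : (monomial β' (1 : A)).IsHomogeneous β'.degree :=
          isHomogeneous_monomial _ rfl
        have h7 : ((X (δ, c) : MvPolynomial (Un r) A) ^ r).IsHomogeneous r := by
          have := (isHomogeneous_X A ((δ, c) : Un r)).pow r
          rwa [one_mul] at this
        have h8 : g.IsHomogeneous r := by
          rw [hg]
          apply IsHomogeneous.sum
          intro k hk
          rw [Finset.mem_range] at hk
          have h9 : (((-1) ^ k : MvPolynomial (Un r) A)).IsHomogeneous 0 := by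
            have h10 : ((-1) ^ k : MvPolynomial (Un r) A) = C ((-1) ^ k) := by
              rw [map_pow, map_neg, map_one]
            rw [h10]
            exact isHomogeneous_C _ _
          have h11 := (h9.mul (Fw_hom e δ.1 (k + 1))).mul
            ((isHomogeneous_X A ((δ, c) : Un r)).pow (r - (k + 1)))
          have h12 : 0 + (k + 1) + 1 * (r - (k + 1)) = r := by omega
          rwa [h12] at h11
        rw [← hdeg]
        exact (h6.mul h7).sub (h6.mul h8)
      · have he0 : IsLocalRing.residue A e = 0 := by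
          rwa [IsLocalRing.residue_eq_zero_iff]
        rw [← mul_sub, map_mul, map_sub, hg, map_sum]
        have h6 : ∑ k ∈ Finset.range r, map (IsLocalRing.residue A)
            ((-1) ^ k * Fw e δ (k + 1) * X (δ, c) ^ (r - (k + 1))) =
            X (δ, c) ^ r := by
          rw [es_eq]
          apply Finset.sum_congr rfl
          intro k _
          rw [map_mul, map_mul, map_Fw, he0, map_pow, map_pow, map_neg, map_one, map_X, Fw_zero]
        rw [h6, map_pow, map_X, sub_self, mul_zero]
    rw [h3]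
    have h6 : monomial β' 1 * X (δ, c) ^ r = monomial β' 1 * g +
        (monomial β' 1 * X (δ, c) ^ r - monomial β' 1 * g) := by ring
    rw [h6]
    exact Submodule.add_mem_sup h4 h5
  have h1 := Submodule.le_of_le_smul_of_le_jacobson_bot hfg
    (IsLocalRing.maximalIdeal_le_jacobson _) key
  exact h1 (Submodule.subset_span ⟨β, hβ, rfl⟩)

end nakayama

end Pool.Agent.V7H63.Gad
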