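import Mathlib

/-!
# An elementary dimension bound
-/

set_option autoImplicit false

open MvPolynomial Finset

namespace Pool.Agent.V7H63.Gad

universe u

section order

variable {U : Type} {K : Type u} [Field K]

/-- the polynomials of order at least `M` at the origin -/
def ordGe (U : Type) (K : Type u) [Field K] (M : ℕ) : Submodule K (MvPolynomial U K) where
  carrier := {p | ∀ β : U →₀ ℕ, β.degree < M → coeff β p = 0}
  add_mem' := by
    intro p q hp hq β hβ
    rw [coeff_add, hp β hβ, hq β hβ, add_zero]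
  zero_mem' := by
    intro β _
    exact coeff_zero _
  smul_mem' := by
    intro c p hp β hβ
    rw [coeff_smul, hp β hβ, smul_zero]

lemma mem_ordGe (M : ℕ) (p : MvPolynomial U K) :
    p ∈ ordGe U K M ↔ ∀ β : U →₀ ℕ, β.degree < M → coeff β p = 0 := Iff.rfl

lemma ordGe_mul (a b M : ℕ) (h : M ≤ a + b) (p q : MvPolynomial U K) (hp : p ∈ ordGe U K a)
    (hq : q ∈ ordGe U K b) : p * q ∈ ordGe U K M := by
  classical
  intro β hβ
  rw [coeff_mul]
  apply Finset.sum_eq_zero
  rintro ⟨x, y⟩ hxy
  rw [Finset.HasAntidiagonal.mem_antidiagonal] at hxy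
  simp only at hxy ⊢
  have h1 : x.degree + y.degree = β.degree := by rw [← hxy, map_add]
  by_cases h2 : x.degree < a
  · rw [hp x h2, zero_mul]
  · rw [hq y (by omega), mul_zero]

lemma ordGe_zero (p : MvPolynomial U K) : p ∈ ordGe U K 0 := by
  intro β hβ
  exact absurd hβ (Nat.not_lt_zero _)

lemma ordGe_pow (p : MvPolynomial U K) (hp : p ∈ ordGe U K 1) (a : ℕ) :
    p ^ a ∈ ordGe U K a := by
  induction a with
  | zero => exact ordGe_zero _
  | succ a ih =>
    rw [pow_succ]
    exact ordGe_mul a 1 (a + 1) le_rfl _ _ ih hp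

lemma ordGe_mono (a b : ℕ) (h : a ≤ b) (p : MvPolynomial U K) (hp : p ∈ ordGe U K b) :
    p ∈ ordGe U K a := fun β hβ => hp β (by omega)

/-- the sum of an ideal and the polynomials of large order has small codimension -/
def Cod (I : Ideal (MvPolynomial U K)) (M n : ℕ) : Prop :=
  ∃ B : Set (MvPolynomial U K), B.Finite ∧ B.ncard ≤ n ∧
    ∀ a, ∃ p ∈ I, ∃ w ∈ ordGe U K M, ∃ b ∈ Submodule.span K B, a = p + w + b

lemma cod_zero (I : Ideal (MvPolynomial U K)) : Cod I 0 0 :=
  ⟨∅, Set.finite_empty, by simp, fun a => ⟨0, Submodule.zero_mem _, a, ordGe_zero a, 0,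
    Submodule.zero_mem _, by ring⟩⟩

lemma Cod.mono {I : Ideal (MvPolynomial U K)} {M n n' : ℕ} (h : Cod I M n) (hn : n ≤ n') :
    Cod I M n' := by
  obtain ⟨B, h1, h2, h3⟩ := h
  exact ⟨B, h1, h2.trans hn, h3⟩

lemma cod_step (I : Ideal (MvPolynomial U K)) (ψ : MvPolynomial U K) (hψ : ψ ∈ ordGe U K 1)
    (M a b : ℕ) (ha : Cod (I ⊔ Ideal.span {ψ}) (M + 1) a) (hb : Cod I M b) :
    Cod I (M + 1) (a + b) := by
  obtain ⟨B1, hf1, hc1, h1⟩ := ha
  obtain ⟨B2, hf2, hc2, h2⟩ := hb
  refine ⟨B1 ∪ (fun x => ψ * x) '' B2, hf1.union (hf2.image _), ?_, ?_⟩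
  · have h3 := Set.ncard_union_le B1 ((fun x => ψ * x) '' B2)
    have h4 := Set.ncard_image_le (f := fun x => ψ * x) hf2
    omega
  · intro x
    obtain ⟨p, hp, w, hw, b, hb, hx⟩ := h1 x
    rw [Submodule.mem_sup] at hp
    obtain ⟨p', hp', q, hq, rfl⟩ := hp
    rw [Ideal.mem_span_singleton'] at hq
    obtain ⟨c, rfl⟩ := hq
    obtain ⟨p2, hp2, w2, hw2, b2, hb2, hc⟩ := h2 c
    refine ⟨p' + ψ * p2, I.add_mem hp' (I.mul_mem_left _ hp2), w + ψ * w2,
      Submodule.add_mem _ hw (ordGe_mul 1 M (M + 1) (by omega) _ _ hψ hw2), b + ψ * b2, ?_, ?_⟩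
    · apply Submodule.add_mem
      · exact Submodule.span_mono Set.subset_union_left hb
      · have h5 : Submodule.span K B2 ≤ (Submodule.span K (B1 ∪ (fun x => ψ * x) '' B2)).comap
            (LinearMap.mulLeft K ψ) := by
          rw [Submodule.span_le]
          intro y hy
          rw [SetLike.mem_coe, Submodule.mem_comap, LinearMap.mulLeft_apply]
          exact Submodule.subset_span (Or.inr ⟨y, hy, rfl⟩)
        exact h5 hb2
    · rw [hx, hc]
      ring

lemma cod_step_pow (I : Ideal (MvPolynomial U K)) (ψ : MvPolynomial U K)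
    (hψ : ψ ∈ ordGe U K 1) (c q : ℕ) (h : ∀ M, Cod (I ⊔ Ideal.span {ψ}) M (c * M ^ q)) (M : ℕ) :
    Cod I M (c * M ^ (q + 1)) := by
  induction M with
  | zero =>
    rw [pow_succ, mul_zero, mul_zero]
    exact cod_zero I
  | succ M ih =>
    refine (cod_step I ψ hψ M _ _ (h (M + 1)) ih).mono ?_
    have h1 : M ^ (q + 1) ≤ (M + 1) ^ q * M := by
      rw [pow_succ]
      exact Nat.mul_le_mul_right _ (Nat.pow_le_pow_left (by omega) _)
    calc c * (M + 1) ^ q + c * M ^ (q + 1) ≤ c * (M + 1) ^ q + c * ((M + 1) ^ q * M) :=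
          Nat.add_le_add_left (Nat.mul_le_mul_left _ h1) _
      _ = c * (M + 1) ^ (q + 1) := by ring

lemma cod_list (L : List (MvPolynomial U K)) (hL : ∀ ψ ∈ L, ψ ∈ ordGe U K 1)
    (I : Ideal (MvPolynomial U K)) (c q : ℕ)
    (h : ∀ M, Cod (I ⊔ Ideal.span {ψ | ψ ∈ L}) M (c * M ^ q)) (M : ℕ) :
    Cod I M (c * M ^ (q + L.length)) := by
  induction L generalizing I M with
  | nil =>
    have h1 : I ⊔ Ideal.span {ψ | ψ ∈ ([] : List (MvPolynomial U K))} = I := by
      simp
    have h2 := h M
    rw [h1] at h2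
    exact h2
  | cons ψ L ih =>
    rw [List.length_cons, ← add_assoc]
    apply cod_step_pow I ψ (hL ψ (List.mem_cons_self))
    intro M'
    apply ih (fun φ hφ => hL φ (List.mem_cons_of_mem _ hφ))
    intro M''
    have h1 : I ⊔ Ideal.span {φ | φ ∈ ψ :: L} = I ⊔ Ideal.span {ψ} ⊔ Ideal.span {φ | φ ∈ L} := by
      have h2 : {φ | φ ∈ ψ :: L} = {ψ} ∪ {φ | φ ∈ L} := by
        ext φ
        simp
      rw [h2, Ideal.span_union, sup_assoc]
    rw [← h1]
    exact h M''

end order

section lower

variable {U : Type} [Fintype U] {K : Type u} [Field K]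

/-- the polynomials of large order have large codimension -/
lemma le_of_cod (t n : ℕ) (ht : 1 ≤ t) (hU : 1 ≤ Fintype.card U)
    (h : Cod (⊥ : Ideal (MvPolynomial U K)) (Fintype.card U * t) n) :
    t ^ Fintype.card U ≤ n := by
  classical
  obtain ⟨B, hf, hc, hB⟩ := h
  let e : (U → Fin t) → (U →₀ ℕ) := fun b => Finsupp.equivFunOnFinite.symm fun u => (b u).1
  let L : MvPolynomial U K →ₗ[K] ((U → Fin t) → K) := LinearMap.pi fun b => lcoeff K (e b)
  have hinj : Function.Injective e := by
    intro a b hab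
    funext u
    have h1 := DFunLike.congr_fun hab u
    exact Fin.ext h1
  have hsurj : ∀ v : (U → Fin t) → K, ∃ p, L p = v := by
    intro v
    refine ⟨∑ b, monomial (e b) (v b), ?_⟩
    funext b
    show coeff (e b) (∑ b, monomial (e b) (v b)) = v b
    rw [coeff_sum, Finset.sum_eq_single b]
    · rw [coeff_monomial, if_pos rfl]
    · intro b' _ hb'
      rw [coeff_monomial, if_neg]
      exact fun h => hb' (hinj h)
    · intro h
      exact absurd (Finset.mem_univ _) h
  have hker : ∀ w ∈ ordGe U K (Fintype.card U * t), L w = 0 := by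
    intro w hw
    funext b
    show coeff (e b) w = 0
    apply hw
    rw [Finsupp.degree_eq_sum]
    have h1 : ∑ u, (e b) u ≤ ∑ u : U, (t - 1) := by
      apply Finset.sum_le_sum
      intro u _
      have := (b u).2
      show (b u).1 ≤ t - 1
      omega
    rw [Finset.sum_const, Finset.card_univ, smul_eq_mul] at h1
    have h2 : Fintype.card U * (t - 1) < Fintype.card U * t :=
      Nat.mul_lt_mul_of_pos_left (by omega) (by omega)
    omega
  have htop : Submodule.span K (L '' B) = ⊤ := by
    rw [eq_top_iff]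
    intro v _
    obtain ⟨a, rfl⟩ := hsurj v
    obtain ⟨p, hp, w, hw, b, hb, rfl⟩ := hB a
    rw [Ideal.mem_bot] at hp
    rw [hp, zero_add, map_add, hker w hw, zero_add, ← Submodule.map_span]
    exact Submodule.mem_map_of_mem hb
  have h1 : Module.finrank K ((U → Fin t) → K) ≤ (L '' B).ncard := by
    have : Fintype (L '' B) := (hf.image L).fintype
    have h2 := finrank_span_le_card (R := K) (M := (U → Fin t) → K) (L '' B)
    rw [htop, finrank_top] at h2
    rw [Set.ncard_eq_toFinset_card']
    exact h2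
  have h3 : (L '' B).ncard ≤ B.ncard := Set.ncard_image_le hf
  rw [Module.finrank_fintype_fun_eq_card, Fintype.card_fun, Fintype.card_fin] at h1
  omega

end lower

section upper

variable {U : Type} [Fintype U] {K : Type u} [Field K] {G : Type} [Fintype G] [DecidableEq G]

/-- every exponent vector of large degree has a part of prescribed degree -/
lemma exists_le_degree (β : U →₀ ℕ) (d : ℕ) (h : d ≤ β.degree) :
    ∃ γ ≤ β, γ.degree = d := by
  classical
  induction d with
  | zero => exact ⟨0, by simp, by simp⟩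
  | succ d ih =>
    obtain ⟨γ, hγ, hd⟩ := ih (by omega)
    have h1 : ∃ u, γ u < β u := by
      by_contra hcon
      push Not at hcon
      have h2 : β.degree ≤ γ.degree := by
        rw [Finsupp.degree_eq_sum, Finsupp.degree_eq_sum]
        exact Finset.sum_le_sum fun u _ => hcon u
      omega
    obtain ⟨u, hu⟩ := h1
    refine ⟨γ + Finsupp.single u 1, ?_, ?_⟩
    · intro v
      rw [Finsupp.add_apply, Finsupp.single_apply]
      have := hγ v
      split_ifs with h3
      · subst h3
        omega
      · omega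
    · rw [map_add, Finsupp.degree_single, hd]

/-- the products which span everything -/
def gens (F' : G → MvPolynomial U K) (D : ℕ) : Set (MvPolynomial U K) :=
  {h | ∃ (β : U →₀ ℕ) (α : G → ℕ), β.degree < D ∧ h = monomial β 1 * ∏ g, F' g ^ α g}

lemma gens_mul (F' : G → MvPolynomial U K) (D : ℕ) (g : G) (p : MvPolynomial U K)
    (hp : p ∈ Submodule.span K (gens F' D)) : p * F' g ∈ Submodule.span K (gens F' D) := by
  have h1 : Submodule.span K (gens F' D) ≤ (Submodule.span K (gens F' D)).comap
      (LinearMap.mulRight K (F' g)) := by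
    rw [Submodule.span_le]
    rintro h ⟨β, α, hβ, rfl⟩
    rw [SetLike.mem_coe, Submodule.mem_comap, LinearMap.mulRight_apply]
    apply Submodule.subset_span
    refine ⟨β, Function.update α g (α g + 1), hβ, ?_⟩
    have h2 : ∏ x, F' x ^ Function.update α g (α g + 1) x = (∏ x, F' x ^ α x) * F' g := by
      rw [← Finset.mul_prod_erase Finset.univ _ (Finset.mem_univ g),
        ← Finset.mul_prod_erase Finset.univ (fun x => F' x ^ α x) (Finset.mem_univ g),
        Function.update_self, pow_succ]
      have h3 : ∏ x ∈ Finset.univ.erase g, F' x ^ Function.update α g (α g + 1) x =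
          ∏ x ∈ Finset.univ.erase g, F' x ^ α x := by
        apply Finset.prod_congr rfl
        intro x hx
        rw [Function.update_of_ne (Finset.ne_of_mem_erase hx)]
      rw [h3]
      ring
    rw [h2]
    ring
  exact h1 hp

/-- every polynomial is a combination of the products -/
lemma mem_span_gens (deg : G → ℕ) (hdeg : ∀ g, 1 ≤ deg g) (F F' : G → MvPolynomial U K)
    (hF' : ∀ g, (F' g - F g).totalDegree < deg g) (D : ℕ)
    (hD : ∀ β : U →₀ ℕ, β.degree = D → monomial β (1 : K) ∈ Submodule.span K
      {h | ∃ (β' : U →₀ ℕ) (g : G), β'.degree + deg g = D ∧ h = monomial β' 1 * F g})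
    (p : MvPolynomial U K) : p ∈ Submodule.span K (gens F' D) := by
  classical
  have key : ∀ d, ∀ β : U →₀ ℕ, β.degree = d → monomial β (1 : K) ∈
      Submodule.span K (gens F' D) := by
    intro d
    induction d using Nat.strong_induction_on with
    | _ d ih =>
      intro β hβ
      have ih' : ∀ q : MvPolynomial U K, q.totalDegree < d → q ∈ Submodule.span K (gens F' D) := by
        intro q hq
        rw [q.as_sum]
        apply Submodule.sum_mem
        intro γ hγ
        have h1 : monomial γ (coeff γ q) = coeff γ q • (monomial γ (1 : K)) := by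
          rw [smul_monomial, smul_eq_mul, mul_one]
        rw [h1]
        apply Submodule.smul_mem
        have h2 : γ.degree ≤ q.totalDegree := le_totalDegree hγ
        exact ih γ.degree (by omega) γ rfl
      by_cases hdD : d < D
      · apply Submodule.subset_span
        refine ⟨β, fun _ => 0, by omega, ?_⟩
        simp
      · push Not at hdD
        obtain ⟨γ, hγ, hγD⟩ := exists_le_degree β D (by omega)
        have h1 : β = (β - γ) + γ := (tsub_add_cancel_of_le hγ).symm
        have h2 : monomial β (1 : K) = monomial (β - γ) 1 * monomial γ 1 := by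
          rw [monomial_mul, mul_one, ← h1]
        have h3 : (β - γ).degree + D = d := by
          rw [← hγD, ← map_add, ← h1, hβ]
        have h4 : Submodule.span K {h | ∃ (β' : U →₀ ℕ) (g : G), β'.degree + deg g = D ∧
            h = monomial β' 1 * F g} ≤ (Submodule.span K (gens F' D)).comap
              (LinearMap.mulLeft K (monomial (β - γ) 1)) := by
          rw [Submodule.span_le]
          rintro h ⟨β', g, hg, rfl⟩
          rw [SetLike.mem_coe, Submodule.mem_comap, LinearMap.mulLeft_apply]
          have h5 : monomial (β - γ) (1 : K) * (monomial β' 1 * F g) =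
              monomial (β - γ + β') 1 * F' g - monomial (β - γ + β') 1 * (F' g - F g) := by
            rw [← mul_assoc, monomial_mul, mul_one]
            ring
          have h6 : (β - γ + β').degree + deg g = d := by
            rw [map_add]
            omega
          have h7 := hdeg g
          rw [h5]
          apply Submodule.sub_mem
          · apply gens_mul
            exact ih (β - γ + β').degree (by omega) _ rfl
          · apply ih'
            refine lt_of_le_of_lt (totalDegree_mul _ _) ?_
            have h8 : (monomial (β - γ + β') (1 : K)).totalDegree ≤ (β - γ + β').degree := by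
              rw [totalDegree_monomial _ one_ne_zero]
              exact le_rfl
            have h9 := hF' g
            omega
        have h5 := h4 (hD γ hγD)
        rw [Submodule.mem_comap, LinearMap.mulLeft_apply, ← h2] at h5
        exact h5
  rw [p.as_sum]
  apply Submodule.sum_mem
  intro γ _
  have h1 : monomial γ (coeff γ p) = coeff γ p • (monomial γ (1 : K)) := by
    rw [smul_monomial, smul_eq_mul, mul_one]
  rw [h1]
  exact Submodule.smul_mem _ _ (key γ.degree γ rfl)

lemma cod_ideal (F' : G → MvPolynomial U K) (D : ℕ)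
    (hspan : ∀ p : MvPolynomial U K, p ∈ Submodule.span K (gens F' D))
    (G0 : Finset G) (I : Ideal (MvPolynomial U K)) (h1 : ∀ g, g ∉ G0 → F' g ∈ I)
    (h2 : ∀ g ∈ G0, F' g ∈ ordGe U K 1) :
    ∃ c, ∀ M, Cod I M (c * M ^ G0.card) := by
  classical
  have hfin : {β : U →₀ ℕ | β.degree < D}.Finite := Finsupp.finite_of_degree_lt D
  refine ⟨{β : U →₀ ℕ | β.degree < D}.ncard, fun M => ?_⟩
  let Sβ := hfin.toFinset
  let f : (U →₀ ℕ) × (G0 → Fin M) → MvPolynomial U K := fun x =>
    monomial x.1 1 * ∏ g : G0, F' g.1 ^ (x.2 g).1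
  refine ⟨((Sβ ×ˢ (Finset.univ : Finset (G0 → Fin M))).image f : Finset _),
    Finset.finite_toSet _, ?_, ?_⟩
  · rw [Set.ncard_coe_finset]
    refine Finset.card_image_le.trans ?_
    rw [Finset.card_product, Finset.card_univ, Fintype.card_fun, Fintype.card_fin,
      Fintype.card_coe, Set.ncard_eq_toFinset_card _ hfin]
  · have hle : Submodule.span K (gens F' D) ≤ (I.restrictScalars K ⊔ ordGe U K M) ⊔
        Submodule.span K (((Sβ ×ˢ (Finset.univ : Finset (G0 → Fin M))).image f : Finset _) :
          Set (MvPolynomial U K)) := by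
      rw [Submodule.span_le]
      rintro h ⟨β, α, hβ, rfl⟩
      rw [SetLike.mem_coe]
      by_cases hα : ∃ g, g ∉ G0 ∧ α g ≠ 0
      · obtain ⟨g, hg, hαg⟩ := hα
        apply Submodule.mem_sup_left
        apply Submodule.mem_sup_left
        rw [Submodule.restrictScalars_mem]
        apply I.mul_mem_left
        rw [← Finset.mul_prod_erase Finset.univ _ (Finset.mem_univ g)]
        apply I.mul_mem_right
        obtain ⟨a, ha⟩ := Nat.exists_eq_succ_of_ne_zero hαg
        rw [ha, pow_succ]
        exact I.mul_mem_left _ (h1 g hg)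
      · push Not at hα
        have h3 : ∏ g, F' g ^ α g = ∏ g : G0, F' g.1 ^ α g.1 := by
          rw [Finset.prod_coe_sort G0 (fun g => F' g ^ α g)]
          symm
          apply Finset.prod_subset (Finset.subset_univ _)
          intro g _ hg
          rw [hα g hg, pow_zero]
        by_cases hM : ∃ g ∈ G0, M ≤ α g
        · obtain ⟨g, hg, hMg⟩ := hM
          apply Submodule.mem_sup_left
          apply Submodule.mem_sup_right
          rw [← Finset.mul_prod_erase Finset.univ (fun g => F' g ^ α g) (Finset.mem_univ g),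
            mul_left_comm]
          exact ordGe_mul M 0 M (by omega) _ _
            (ordGe_mono M (α g) hMg _ (ordGe_pow _ (h2 g hg) _)) (ordGe_zero _)
        · push Not at hM
          apply Submodule.mem_sup_right
          apply Submodule.subset_span
          rw [Finset.mem_coe, Finset.mem_image]
          refine ⟨(β, fun g => ⟨α g.1, hM g.1 g.2⟩), ?_, ?_⟩
          · rw [Finset.mem_product]
            refine ⟨?_, Finset.mem_univ _⟩
            rw [Set.Finite.mem_toFinset]
            exact hβ
          · rw [h3]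
    intro a
    have h3 := hle (hspan a)
    rw [Submodule.mem_sup] at h3
    obtain ⟨x, hx, b, hb, rfl⟩ := h3
    rw [Submodule.mem_sup] at hx
    obtain ⟨p, hp, w, hw, rfl⟩ := hx
    exact ⟨p, hp, w, hw, b, hb, rfl⟩

/-- **The dimension bound.** -/
theorem dim_bound (deg : G → ℕ) (hdeg : ∀ g, 1 ≤ deg g) (F F' : G → MvPolynomial U K)
    (hF' : ∀ g, (F' g - F g).totalDegree < deg g) (D : ℕ)
    (hD : ∀ β : U →₀ ℕ, β.degree = D → monomial β (1 : K) ∈ Submodule.span K
      {h | ∃ (β' : U →₀ ℕ) (g : G), β'.degree + deg g = D ∧ h = monomial β' 1 * F g})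
    (L : List (MvPolynomial U K)) (hL : ∀ ψ ∈ L, ψ ∈ ordGe U K 1) (G0 : Finset G)
    (h1 : ∀ g, g ∉ G0 → F' g ∈ Ideal.span {ψ | ψ ∈ L}) (h2 : ∀ g ∈ G0, F' g ∈ ordGe U K 1) :
    Fintype.card U ≤ G0.card + L.length := by
  by_contra hcon
  push Not at hcon
  obtain ⟨c, hc⟩ := cod_ideal F' D (mem_span_gens deg hdeg F F' hF' D hD) G0
    (Ideal.span {ψ | ψ ∈ L}) h1 h2
  have h3 : ∀ M, Cod (⊥ : Ideal (MvPolynomial U K)) M (c * M ^ (G0.card + L.length)) := by
    intro M
    apply cod_list L hL
    intro M'
    rw [bot_sup_eq]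
    exact hc M'
  set N := Fintype.card U with hN
  set q := G0.card + L.length with hq
  have hbig : ∀ t, 1 ≤ t → t ^ N ≤ c * (N * t) ^ q := fun t ht =>
    le_of_cod t _ ht (by omega) (h3 (N * t))
  have h4 := hbig (c * N ^ q + 1) (by omega)
  have h5 : (c * N ^ q + 1) ^ N = (c * N ^ q + 1) ^ q * (c * N ^ q + 1) ^ (N - q) := by
    rw [← pow_add]
    congr 1
    omega
  have h6 : c * N ^ q + 1 ≤ (c * N ^ q + 1) ^ (N - q) := by
    have h7 : N - q = (N - q - 1) + 1 := by omega
    rw [h7, pow_succ]
    exact Nat.le_mul_of_pos_left _ (Nat.pow_pos (by omega))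
  have h7 : (c * N ^ q + 1) ^ q * (c * N ^ q + 1) ≤ c * (N * (c * N ^ q + 1)) ^ q := by
    refine le_trans ?_ h4
    rw [h5]
    exact Nat.mul_le_mul_left _ h6
  rw [mul_pow] at h7
  have h8 : c * (N ^ q * (c * N ^ q + 1) ^ q) = (c * N ^ q + 1) ^ q * (c * N ^ q) := by ring
  rw [h8] at h7
  have h9 := Nat.le_of_mul_le_mul_left h7 (Nat.pow_pos (by omega))
  omega

end upper

end Pool.Agent.V7H63.Gad
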