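import Pool.Agent.V7H63.Gad.Link
import Pool.Agent.V7H63.Gad.Eps
import Pool.Agent.V7H63.Gad.Krull
import Pool.Agent.V7H63.Gad.Cut

/-!
# The lower bound for branching programs for the permanent
-/

set_option autoImplicit false

open MvPolynomial Finset

namespace Pool.Agent.V7H63.Gad

open Pool.Agent.V7H63.Deg

universe u

section degree

variable {V U : Type} {K : Type u} [Field K]

lemma totalDegree_aeval_le (y : V → MvPolynomial U K) (hy : ∀ v, (y v).totalDegree ≤ 1)
    (p : MvPolynomial V K) : (aeval y p).totalDegree ≤ p.totalDegree := by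
  conv_lhs => rw [p.as_sum]
  rw [map_sum]
  apply totalDegree_sum_le
  intro β hβ
  rw [aeval_monomial, algebraMap_eq]
  refine (totalDegree_mul _ _).trans ?_
  rw [totalDegree_C, zero_add, Finsupp.prod]
  refine (totalDegree_finset_prod _ _).trans ?_
  refine le_trans ?_ (le_totalDegree hβ)
  apply Finset.sum_le_sum
  intro v _
  refine (totalDegree_pow _ _).trans ?_
  calc β v * (y v).totalDegree ≤ β v * 1 := Nat.mul_le_mul_left _ (hy v)
    _ = β v := mul_one _

lemma totalDegree_pderiv_le (i : V) (p : MvPolynomial V K) :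
    (pderiv i p).totalDegree ≤ p.totalDegree - 1 := by
  classical
  conv_lhs => rw [p.as_sum]
  rw [map_sum]
  apply totalDegree_sum_le
  intro β hβ
  rw [pderiv_monomial]
  by_cases h : β i = 0
  · rw [h, Nat.cast_zero, mul_zero, map_zero, totalDegree_zero]
    exact Nat.zero_le _
  · refine (totalDegree_monomial_le _ _).trans ?_
    have h1 : β = (β - Finsupp.single i 1) + Finsupp.single i 1 := by
      rw [tsub_add_cancel_of_le]
      rw [Finsupp.single_le_iff]
      omega
    have h2 : β.degree = (β - Finsupp.single i 1).degree + 1 := by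
      conv_lhs => rw [h1]
      rw [map_add, Finsupp.degree_single]
    have h3 : β.degree ≤ p.totalDegree := le_totalDegree hβ
    have h4 : ((β - Finsupp.single i 1).sum fun _ => id) = (β - Finsupp.single i 1).degree := rfl
    rw [h4]
    omega

end degree

section main

variable {K : Type u} [Field K]

/-- the coordinates of a point with affine coordinates -/
lemma mem_ordGe_one {V U : Type} (x : V → MvPolynomial U K) (p : MvPolynomial V K)
    (h : eval (fun v => constantCoeff (x v)) p = 0) : aeval x p ∈ ordGe U K 1 := by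
  intro β hβ
  have h1 : β = 0 := by
    rw [← Finsupp.degree_eq_zero_iff]
    omega
  rw [h1, ← constantCoeff_eq, ← h]
  have h2 : (constantCoeff : MvPolynomial U K →+* K).comp (aeval x : MvPolynomial V K →ₐ[K]
      MvPolynomial U K).toRingHom = eval (fun v => constantCoeff (x v)) := by
    apply ringHom_ext
    · intro a
      simp
    · intro v
      simp
  exact congrArg (fun f : MvPolynomial V K →+* K => f p) h2

/-- the derivative of a decomposition -/
lemma deriv_dec {V U : Type} (x : V → MvPolynomial U K) (hx : ∀ v, (x v).totalDegree ≤ 1)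
    (L : List (MvPolynomial V K × MvPolynomial V K)) (R : MvPolynomial V K) (v : V) :
    ∃ q ∈ Ideal.span {ψ | ψ ∈ L.map (fun y => aeval x y.1) ++ L.map (fun y => aeval x y.2)},
      ∃ R' : MvPolynomial U K, R'.totalDegree ≤ R.totalDegree - 1 ∧
        aeval x (pderiv v ((L.map fun y => y.1 * y.2).sum + R)) = q + R' := by
  refine ⟨aeval x (pderiv v ((L.map fun y => y.1 * y.2).sum)), ?_, aeval x (pderiv v R),
    (totalDegree_aeval_le x hx _).trans (totalDegree_pderiv_le v R), by rw [map_add, map_add]⟩
  have key : ∀ L' : List (MvPolynomial V K × MvPolynomial V K), (∀ y ∈ L', y ∈ L) →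
      aeval x (pderiv v ((L'.map fun y => y.1 * y.2).sum)) ∈
        Ideal.span {ψ | ψ ∈ L.map (fun y => aeval x y.1) ++ L.map (fun y => aeval x y.2)} := by
    intro L'
    induction L' with
    | nil =>
      intro _
      simp
    | cons y L' ih =>
      intro h
      rw [List.map_cons, List.sum_cons, map_add, map_add]
      apply Ideal.add_mem _ _ (ih fun y' hy' => h y' (List.mem_cons_of_mem _ hy'))
      rw [pderiv_mul, map_add, map_mul, map_mul]
      have hy := h y (List.mem_cons_self)
      apply Ideal.add_mem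
      · apply Ideal.mul_mem_left
        apply Ideal.subset_span
        exact List.mem_append_right _ (List.mem_map_of_mem hy)
      · apply Ideal.mul_mem_right
        apply Ideal.subset_span
        exact List.mem_append_left _ (List.mem_map_of_mem hy)
  exact key L fun _ h => h

variable {r : ℕ}

lemma chi_degree (R : Type u) [CommRing R] (i : Fin r) (j : ℕ) :
    (chi R i j).totalDegree ≤ 1 := (chi_hom i j).totalDegree_le

lemma xe_degree (e : K) (i : Fin r) (j : ℕ) : (xe e i j).totalDegree ≤ 1 := by
  rw [xe]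
  refine (totalDegree_mul _ _).trans ?_
  rw [totalDegree_C, zero_add]
  exact chi_degree K i j

/-- the entries of the matrix are affine -/
lemma mat_degree {U : Type} (x E : Fin r → ℕ → MvPolynomial U K)
    (y : Fin (r + 1) → MvPolynomial U K) (hx : ∀ i j, (x i j).totalDegree ≤ 1)
    (hE : ∀ i j, (E i j).totalDegree ≤ 1) (hy : ∀ s, (y s).totalDegree ≤ 1) (c : Col r)
    (a : Row r) : (mat x E y c a).totalDegree ≤ 1 := by
  classical
  have h1 : ∀ {I : Type} [DecidableEq I] (i j : I),
      ((Pi.single i 1 : I → MvPolynomial U K) j).totalDegree ≤ 1 := by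
    intro I _ i j
    by_cases h : j = i
    · subst h
      rw [Pi.single_eq_same, totalDegree_one]
      exact Nat.zero_le _
    · rw [Pi.single_eq_of_ne h, totalDegree_zero]
      exact Nat.zero_le _
  have h0 : (0 : MvPolynomial U K).totalDegree ≤ 1 := by
    rw [totalDegree_zero]
    exact Nat.zero_le _
  have h11 : (1 : MvPolynomial U K).totalDegree ≤ 1 := by
    rw [totalDegree_one]
    exact Nat.zero_le _
  have hR : ∀ (i : Fin (r + 1)) (b : K1 r), (vR i b : MvPolynomial U K).totalDegree ≤ 1 := by
    intro i b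
    rcases b with b | b
    · exact h1 i b
    · exact h0
  have hlow : ∀ (v : K2 r → MvPolynomial U K), (∀ b, (v b).totalDegree ≤ 1) → ∀ b,
      (low v b).totalDegree ≤ 1 := by
    intro v hv b
    rcases b with b | b
    · exact h0
    · exact hv b
  have hx2 : ∀ (j : ℕ) (b : K2 r), (vx x E j b).totalDegree ≤ 1 := by
    intro j b
    rcases b with b | b | b | b
    · exact h0
    · exact h0
    · exact hx b j
    · exact hE b j
  have hb2 : ∀ (i : Fin r) (b : K2 r), (vb i b : MvPolynomial U K).totalDegree ≤ 1 := by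
    intro i b
    rcases b with b | b | b
    · exact h0
    · exact h1 i b
    · exact h0
  have ha2 : ∀ (i : Fin r) (b : K2 r), (va i b : MvPolynomial U K).totalDegree ≤ 1 := by
    intro i b
    rcases b with b | b | b | b
    · exact h0
    · exact h0
    · exact h1 i b
    · exact h0
  have he2 : ∀ (i : Fin r) (b : K2 r), (ve i b : MvPolynomial U K).totalDegree ≤ 1 := by
    intro i b
    rcases b with b | b | b | b
    · exact h0
    · exact h0
    · exact h0
    · exact h1 i b
  have hs2 : ∀ b : K2 r, (vs b : MvPolynomial U K).totalDegree ≤ 1 := by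
    intro b
    rcases b with b | b
    · exact h11
    · exact h0
  have ht2 : ∀ b : K2 r, (vt b : MvPolynomial U K).totalDegree ≤ 1 := by
    intro b
    rcases b with b | b | b
    · exact h0
    · exact h11
    · exact h0
  have hadd : ∀ p q : MvPolynomial U K, p.totalDegree ≤ 1 → q.totalDegree ≤ 1 →
      (p + q).totalDegree ≤ 1 := fun p q hp hq => (totalDegree_add _ _).trans (max_le hp hq)
  have hsub : ∀ p q : MvPolynomial U K, p.totalDegree ≤ 1 → q.totalDegree ≤ 1 →
      (p - q).totalDegree ≤ 1 := fun p q hp hq => (totalDegree_sub _ _).trans (max_le hp hq)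
  have hneg : ∀ p : MvPolynomial U K, p.totalDegree ≤ 1 → (-p).totalDegree ≤ 1 := by
    intro p hp
    rwa [totalDegree_neg]
  have htwo : ∀ p : MvPolynomial U K, p.totalDegree ≤ 1 →
      ((2 : MvPolynomial U K) • p).totalDegree ≤ 1 := by
    intro p hp
    rw [two_smul]
    exact hadd p p hp hp
  rcases c with ⟨j, m⟩ | s
  · rcases a with a | a
    · exact h1 j a
    · show (rest x E j m a).totalDegree ≤ 1
      rcases j with t | i
      · fin_cases m
        · exact hsub _ _ (hsub _ _ (hneg _ (hR _ _)) (hR _ _))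
            (hlow _ (fun b => htwo _ (hx2 _ b)) _)
        · exact hsub _ _ (hR _ _) (hR _ _)
        · exact hadd _ _ (hR _ _) (hlow _ (hx2 _) _)
      · fin_cases m
        · exact hlow _ (fun b => hadd _ _ (ha2 _ b) (hadd _ _ (he2 _ b) (hb2 _ b))) _
        · exact hlow _ (fun b => hneg _ (hadd _ _ (he2 _ b) (hb2 _ b))) _
        · exact hlow _ (fun b => hsub _ _ (hadd _ _ (he2 _ b) (hb2 _ b))
            (htwo _ (hs2 b))) _
  · rcases a with a | a
    · exact h0
    · rcases a with a | a
      · exact h0
      · show (vt a + y s * vs a).totalDegree ≤ 1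
        apply hadd _ _ (ht2 a)
        rcases a with a | a
        · show (y s * 1).totalDegree ≤ 1
          rw [mul_one]
          exact hy s
        · show (y s * 0).totalDegree ≤ 1
          rw [mul_zero]
          exact h0

/-- **The bound for branching programs.** -/
theorem abp_bound {F : Type u} [Field F] {n g Δ q : ℕ} (hr : 1 ≤ r) (hn : 7 * r + 1 ≤ n)
    (hF : (n.factorial : F) ≠ 0) (hg : 1 ≤ g) (hq : 1 ≤ q) (hΔ : Δ * q ≤ g) (w : ℕ → ℕ)
    (M : ∀ l, Fin (w l) → Fin (w (l + 1)) → MvPolynomial (Fin n × Fin n) F)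
    (hM : ∀ l u v, (M l u v).totalDegree ≤ Δ) (D : ℕ) (h : MvPolynomial (Fin n × Fin n) F)
    (hh : h.totalDegree ≤ g) (hf : run w M D 0 (fun _ => 1) = Perm.permX n F + h) :
    ∃ m, q * m ≤ ∑ i ∈ Finset.range (D - 1), w (1 + i) ∧
      (r + 1) * r ≤ (r + 1) * (g - 1) + 2 * m := by
  classical
  -- the fields
  let A : Type u := PowerSeries F
  let K : Type u := FractionRing A
  let ι : F →+* K := (algebraMap A K).comp (PowerSeries.C)
  let e : K := algebraMap A K PowerSeries.X
  have hinj : Function.Injective (algebraMap A K) := IsFractionRing.injective A K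
  have he0 : e ≠ 0 := by
    intro h
    have h1 : (PowerSeries.X : A) = 0 := hinj (by rw [map_zero]; exact h)
    exact PowerSeries.X_ne_zero h1
  have hcast : ∀ m : ℕ, (m : F) ≠ 0 → (m : K) ≠ 0 := by
    intro m hm h
    apply hm
    apply ι.injective
    rw [map_natCast, map_zero, h]
  have hfac : ∀ m ≤ n, (m.factorial : K) ≠ 0 := by
    intro m hm
    apply hcast
    intro h
    apply hF
    obtain ⟨t, ht⟩ := Nat.factorial_dvd_factorial hm
    rw [ht, Nat.cast_mul, h, zero_mul]
  have hpos : ∀ m, 1 ≤ m → m ≤ n → (m : K) ≠ 0 := by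
    intro m hm hmn h
    apply hfac m hmn
    obtain ⟨t, ht⟩ := Nat.dvd_factorial hm le_rfl
    rw [ht, Nat.cast_mul, h, zero_mul]
  have hy0 : Function.Injective (fun s : Fin (r + 1) => ((s.1 : ℕ) : K)) := by
    have h1 : ∀ a b : Fin (r + 1), a < b → ((a.1 : ℕ) : K) ≠ ((b.1 : ℕ) : K) := by
      intro a b hab h
      have h2 : (((b.1 - a.1 : ℕ)) : K) = 0 := by
        rw [Nat.cast_sub (by have := Fin.lt_def.1 hab; omega), h, sub_self]
      exact hpos (b.1 - a.1) (by have := Fin.lt_def.1 hab; omega)
        (by have := b.2; omega) h2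
    intro a b hab
    rcases lt_trichotomy a b with h | h | h
    · exact absurd hab (h1 a b h)
    · exact h
    · exact absurd hab.symm (h1 b a h)
  have h2 : (2 : K) ≠ 0 := by
    have := hpos 2 (by omega) (by omega)
    exact_mod_cast this
  -- the substitution
  obtain ⟨y, hy, hyP⟩ := exists_subst (K := K) (r := r) hn
  have hydeg : ∀ v, (y v).totalDegree ≤ 1 := by
    intro v
    rcases hy v with ⟨w, h⟩ | h | h
    · rw [h, totalDegree_X]
    · rw [h, totalDegree_one]
      exact Nat.zero_le _
    · rw [h, totalDegree_zero]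
      exact Nat.zero_le _
  let φ : MvPolynomial (Fin n × Fin n) F →+* MvPolynomial (Unit × Row r × Col r) K :=
    (aeval y : MvPolynomial (Fin n × Fin n) K →ₐ[K] _).toRingHom.comp (map ι)
  have hφdeg : ∀ p : MvPolynomial (Fin n × Fin n) F, (φ p).totalDegree ≤ p.totalDegree := by
    intro p
    refine (totalDegree_aeval_le y hydeg _).trans ?_
    rw [totalDegree, totalDegree]
    exact Finset.sup_mono (support_map_subset _ _)
  have hP : run w (fun l u v => φ (M l u v)) D 0 (fun _ => 1) =
      pi (gx K ()) (Finset.univ : Finset (Col r)) (Finset.univ : Finset (Row r)) + φ h := by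
    have h3 := map_run w M φ D 0 (fun _ => 1)
    rw [hf] at h3
    have h4 : (fun _ => φ 1 : Fin (w 0) → MvPolynomial (Unit × Row r × Col r) K) =
        fun _ => 1 := by
      funext _
      exact map_one φ
    rw [h4] at h3
    rw [← h3, map_add]
    congr 1
    show aeval y (map ι (Perm.permX n F)) = _
    rw [Perm.map_permX, hyP]
  -- the point
  let x : Unit × Row r × Col r → MvPolynomial (Un r) K :=
    pt (xe e) (Ee e) (fun s : Fin (r + 1) => C ((s.1 : ℕ) : K))
  have hxdeg : ∀ v, (x v).totalDegree ≤ 1 := by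
    intro v
    refine mat_degree _ _ _ (xe_degree e) ?_ ?_ _ _
    · intro i j
      rw [Ee, totalDegree_C]
      exact Nat.zero_le _
    · intro s
      rw [totalDegree_C]
      exact Nat.zero_le _
  obtain ⟨m, hm, L, hL, hLz, R0, hR0, hdec0⟩ := dec_abp (fun v => constantCoeff (x v)) w
    (fun l u v => φ (M l u v)) Δ (fun l u v => (hφdeg _).trans (hM l u v)) q D hq
  rw [hP] at hdec0
  set R := R0 - φ h with hRdef
  have hR : R.totalDegree ≤ g :=
    (totalDegree_sub _ _).trans (max_le (hR0.trans hΔ) ((hφdeg _).trans hh))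
  have hdec : pi (gx K ()) (Finset.univ : Finset (Col r)) (Finset.univ : Finset (Row r)) =
      (L.map fun x => x.1 * x.2).sum + R := by
    rw [hRdef, ← add_sub_assoc, ← hdec0, add_sub_cancel_right]
  refine ⟨m, hm, ?_⟩
  set Lψ : List (MvPolynomial (Un r) K) :=
    L.map (fun y => aeval x y.1) ++ L.map (fun y => aeval x y.2) with hLψ
  have hlen : Lψ.length = 2 * L.length := by
    rw [hLψ, List.length_append, List.length_map, List.length_map]
    ring
  have hord : ∀ ψ ∈ Lψ, ψ ∈ ordGe (Un r) K 1 := by
    intro ψ hψ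
    rw [hLψ, List.mem_append, List.mem_map, List.mem_map] at hψ
    rcases hψ with ⟨q, hq, rfl⟩ | ⟨q, hq, rfl⟩
    · exact mem_ordGe_one x q.1 (hLz q hq).1
    · exact mem_ordGe_one x q.2 (hLz q hq).2
  -- the windows
  have hwin : ∀ (δ : Fin (r + 1)) (k : ℕ), k ≤ r → ∃ F' : MvPolynomial (Un r) K,
      F' ∈ Ideal.span {ψ | ψ ∈ Lψ} ∧ (F' - Fw e δ.1 k).totalDegree ≤ g - 1 := by
    intro δ k hk
    obtain ⟨c, hc⟩ := exists_comb (xe e) (Ee e) (fun s : Fin (r + 1) => ((s.1 : ℕ) : K)) hy0 h2
      (hfac r (by omega)) k hk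
    have h3 : ∀ s : Fin (r + 1), ∃ q ∈ Ideal.span {ψ | ψ ∈ Lψ}, ∃ R' : MvPolynomial (Un r) K,
        R'.totalDegree ≤ g - 1 ∧ aeval x (pderiv ((), Sum.inr (Sum.inl δ), Sum.inr s)
          (pi (gx K ()) (Finset.univ : Finset (Col r)) (Finset.univ : Finset (Row r)))) =
            q + R' := by
      intro s
      rw [hdec]
      obtain ⟨q, hq, R', hR', h⟩ := deriv_dec x hxdeg L R ((), Sum.inr (Sum.inl δ), Sum.inr s)
      exact ⟨q, hq, R', by omega, h⟩
    choose q hq R' hR' hqR using h3
    have h4 : win (xe e) (Ee e) δ.1 k = ∑ s, c s • q s + ∑ s, c s • R' s := by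
      rw [hc δ, ← Finset.sum_add_distrib]
      apply Finset.sum_congr rfl
      intro s _
      rw [← smul_add]
      congr 1
      exact hqR s
    rw [win_eq] at h4
    set a : K := e ^ (r * δ.1 ^ 2) with ha
    have ha0 : a ≠ 0 := pow_ne_zero _ he0
    have h5 : (C a⁻¹ : MvPolynomial (Un r) K) * C a = 1 := by
      rw [← map_mul, inv_mul_cancel₀ ha0, map_one]
    refine ⟨C a⁻¹ * ∑ s, c s • q s, ?_, ?_⟩
    · apply Ideal.mul_mem_left
      apply Ideal.sum_mem
      intro s _
      rw [smul_eq_C_mul]
      exact Ideal.mul_mem_left _ _ (hq s)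
    · have h6 : C a⁻¹ * ∑ s, c s • q s - Fw e δ.1 k = -(C a⁻¹ * ∑ s, c s • R' s) := by
        have h7 : (Fw e δ.1 k : MvPolynomial (Un r) K) =
            C a⁻¹ * (∑ s, c s • q s + ∑ s, c s • R' s) := by
          rw [← h4, ← mul_assoc, h5, one_mul]
        rw [h7]
        ring
      rw [h6, totalDegree_neg]
      refine (totalDegree_mul _ _).trans ?_
      rw [totalDegree_C, zero_add]
      apply totalDegree_sum_le
      intro s _
      exact (totalDegree_smul_le _ _).trans (hR' s)
  choose! F' hF'1 hF'2 using hwin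
  -- the dimension bound
  let deg : Fin (r + 1) × Fin r → ℕ := fun x => x.2.1 + 1
  let Fm : Fin (r + 1) × Fin r → MvPolynomial (Un r) K := fun x => Fw e x.1.1 (x.2.1 + 1)
  let Fm' : Fin (r + 1) × Fin r → MvPolynomial (Un r) K := fun x =>
    if x.2.1 + 1 < g then Fw e x.1.1 (x.2.1 + 1) else F' x.1 (x.2.1 + 1)
  let G0 : Finset (Fin (r + 1) × Fin r) :=
    Finset.univ ×ˢ (Finset.univ.filter fun k : Fin r => k.1 + 1 < g)
  have hG0 : G0.card ≤ (r + 1) * (g - 1) := by
    rw [Finset.card_product, Finset.card_univ, Fintype.card_fin]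
    apply Nat.mul_le_mul_left
    have h3 : (Finset.univ.filter fun k : Fin r => k.1 + 1 < g) =
        Finset.univ.filter fun k : Fin r => k.1 < g - 1 := by
      ext k
      simp only [Finset.mem_filter, Finset.mem_univ, true_and]
      omega
    rw [h3, Fin.card_filter_val_lt]
    exact Nat.min_le_right _ _
  have hbound := dim_bound (U := Un r) (K := K) (G := Fin (r + 1) × Fin r) deg
    (fun x => Nat.succ_le_succ (Nat.zero_le _)) Fm Fm' ?_ (D1 r) ?_ Lψ hord G0 ?_ ?_
  · rw [Fintype.card_prod, Fintype.card_fin, Fintype.card_fin, hlen] at hbound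
    omega
  · rintro ⟨δ, k⟩
    by_cases h : k.1 + 1 < g
    · simp only [Fm', Fm, deg, if_pos h, sub_self, totalDegree_zero]
      omega
    · simp only [Fm', Fm, deg, if_neg h]
      have := hF'2 δ (k.1 + 1) (by have := k.2; omega)
      omega
  · intro β hβ
    have h3 := mono_mem (A := A) hr PowerSeries.X (by
      rw [PowerSeries.maximalIdeal_eq_span_X]
      exact Ideal.mem_span_singleton_self _) β hβ
    have h4 : ∀ p ∈ Submodule.span A {h : MvPolynomial (Un r) A | ∃ (β' : Un r →₀ ℕ)
      (δ : Fin (r + 1)) (k : ℕ), 1 ≤ k ∧ k ≤ r ∧ β'.degree + k = D1 r ∧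
      h = monomial β' 1 * Fw PowerSeries.X δ k}, map (algebraMap A K) p ∈ Submodule.span K
        {h | ∃ (β' : Un r →₀ ℕ) (g : Fin (r + 1) × Fin r), β'.degree + deg g = D1 r ∧
          h = monomial β' 1 * Fm g} := by
      intro p hp
      induction hp using Submodule.span_induction with
      | mem p hp =>
        obtain ⟨β', δ, k, hk1, hk2, hk3, rfl⟩ := hp
        apply Submodule.subset_span
        refine ⟨β', (δ, ⟨k - 1, by omega⟩), ?_, ?_⟩
        · simp only [deg]
          omega
        · rw [map_mul, map_monomial, map_one, map_Fw]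
          simp only [Fm]
          have h5 : k - 1 + 1 = k := by omega
          rw [h5]
      | zero =>
        rw [map_zero]
        exact Submodule.zero_mem _
      | add p q _ _ hp hq =>
        rw [map_add]
        exact Submodule.add_mem _ hp hq
      | smul a p _ hp =>
        rw [smul_eq_C_mul, map_mul, map_C, ← smul_eq_C_mul]
        exact Submodule.smul_mem _ _ hp
    have h5 := h4 _ h3
    rwa [map_monomial, map_one] at h5
  · rintro ⟨δ, k⟩ hk
    have h : ¬ k.1 + 1 < g := by
      intro h
      apply hk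
      simp only [G0, Finset.mem_product, Finset.mem_univ, Finset.mem_filter, true_and]
      exact h
    simp only [Fm', if_neg h]
    exact hF'1 δ (k.1 + 1) (by have := k.2; omega)
  · rintro ⟨δ, k⟩ hk
    simp only [G0, Finset.mem_product, Finset.mem_univ, Finset.mem_filter, true_and] at hk
    simp only [Fm', if_pos hk]
    intro β hβ
    by_contra hne
    have h3 := Fw_hom e δ.1 (k.1 + 1) hne
    have h4 : β = 0 := by
      rw [← Finsupp.degree_eq_zero_iff]
      omega
    rw [h4, map_zero] at h3
    omega

end main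

end Pool.Agent.V7H63.Gad
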