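import Pool.Agent.V7H63.Deg.Direct

/-!
# Coefficients of squarefree monomials: products
-/

set_option autoImplicit false

open MvPolynomial Finset

namespace Pool.Agent.V7H63.Gad

open Pool.Agent.V7H63.Deg

universe u

section fubini

variable {J K : Type} [Fintype J] [DecidableEq J] [Fintype K] [DecidableEq K]
  {S : Type u} [CommRing S]

/-- Fubini -/
lemma cf_sum_type (Y : Finset J) (Z : Finset K) (p : MvPolynomial (J ⊕ K) S) :
    cf (Y.disjSum Z) p = cf Z (cf Y (sumAlgEquiv S J K p)) := by
  classical
  induction p using MvPolynomial.induction_on' with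
  | add p q hp hq => rw [cf_add, hp, hq, map_add, cf_add, cf_add]
  | monomial m a =>
    have h1 : sumAlgEquiv S J K (monomial m a) =
        monomial (Finsupp.sumFinsuppEquivProdFinsupp m).1
          (monomial (Finsupp.sumFinsuppEquivProdFinsupp m).2 a) := by
      rw [monomial_eq, monomial_eq (R := MvPolynomial K S), monomial_eq (R := S)]
      rw [map_mul, sumAlgEquiv_C_inl, map_mul (C : MvPolynomial K S →+* _), mul_assoc]
      congr 1
      rw [Finsupp.prod_fintype _ _ (by intro i; simp), Finsupp.prod_fintype _ _ (by intro i; simp),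
        Finsupp.prod_fintype _ _ (by intro i; simp), map_prod, Fintype.prod_sum_type, map_prod,
        mul_comm]
      congr 1
      · apply Finset.prod_congr rfl
        intro i _
        rw [map_pow, sumAlgEquiv_X_inr, map_pow]
        rfl
      · apply Finset.prod_congr rfl
        intro i _
        rw [map_pow, sumAlgEquiv_X_inl]
        rfl
    rw [h1, cf, cf, cf, coeff_monomial, coeff_monomial]
    by_cases h : m = ind (Y.disjSum Z)
    · subst h
      rw [if_pos rfl, if_pos, coeff_monomial, if_pos]
      · ext i
        show ind (Y.disjSum Z) (Sum.inr i) = ind Z i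
        rw [ind_apply, ind_apply]
        simp
      · ext i
        show ind (Y.disjSum Z) (Sum.inl i) = ind Y i
        rw [ind_apply, ind_apply]
        simp
    · rw [if_neg h]
      split_ifs with h2
      · rw [coeff_monomial, if_neg]
        intro h3
        apply h
        ext i
        rcases i with i | i
        · have h4 := DFunLike.congr_fun h2 i
          rw [ind_apply] at h4
          rw [ind_apply]
          simp only [Finset.inl_mem_disjSum]
          exact h4
        · have h4 := DFunLike.congr_fun h3 i
          rw [ind_apply] at h4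
          rw [ind_apply]
          simp only [Finset.inr_mem_disjSum]
          exact h4
      · simp

lemma sumAlg_lin (u : J → S) (v : K → S) :
    sumAlgEquiv S J K (lin (Sum.elim u v)) = lin (fun j => C (u j)) + C (lin v) := by
  rw [lin, Fintype.sum_sum_type, map_add, map_sum, map_sum, lin, lin, map_sum]
  congr 1
  · apply Finset.sum_congr rfl
    intro j _
    rw [map_mul, sumAlgEquiv_C_inl, sumAlgEquiv_X_inl, Sum.elim_inl]
  · apply Finset.sum_congr rfl
    intro j _
    rw [map_mul, sumAlgEquiv_C_inl, sumAlgEquiv_X_inr, Sum.elim_inr, map_mul]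

end fubini

section basic

variable {J : Type} [Fintype J] [DecidableEq J] {S : Type u} [CommRing S]

lemma cf_mul_C (Y : Finset J) (a : S) (p : MvPolynomial J S) :
    cf Y (p * C a) = cf Y p * a := by
  rw [mul_comm, cf_C_mul, mul_comm]

lemma cf_X_sq_mul (Y : Finset J) (j : J) (q : MvPolynomial J S) :
    cf Y (X j ^ 2 * q) = 0 := by
  rw [pow_two, mul_assoc, cf_X_mul]
  split_ifs
  · rw [cf_X_mul, if_neg (Finset.notMem_erase _ _)]
  · rfl

/-- the coefficients of a product of polynomials in one variable each -/
lemma cf_prod_local (A B : J → S) (Q : J → MvPolynomial J S) (s Y : Finset J) :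
    cf Y (∏ j ∈ s, (C (A j) + C (B j) * X j + X j ^ 2 * Q j)) =
      if Y ⊆ s then (∏ j ∈ Y, B j) * ∏ j ∈ s \ Y, A j else 0 := by
  induction s using Finset.induction_on generalizing Y with
  | empty =>
    rw [Finset.prod_empty, cf_one]
    by_cases h : Y = ∅
    · subst h
      simp
    · rw [if_neg h, if_neg]
      rwa [Finset.subset_empty]
  | insert i s hi ih =>
    rw [Finset.prod_insert hi, add_mul, add_mul, cf_add, cf_add, cf_C_mul, mul_assoc, cf_C_mul,
      cf_X_mul, mul_assoc, cf_X_sq_mul, add_zero, ih Y, ih (Y.erase i)]
    by_cases hY : i ∈ Y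
    · have h1 : ¬ Y ⊆ s := fun h => hi (h hY)
      rw [if_neg h1, if_pos hY, mul_zero, zero_add]
      by_cases h2 : Y.erase i ⊆ s
      · have h3 : Y ⊆ insert i s := by
          intro j hj
          by_cases hij : j = i
          · rw [hij]
            exact Finset.mem_insert_self _ _
          · exact Finset.mem_insert_of_mem (h2 (Finset.mem_erase.2 ⟨hij, hj⟩))
        rw [if_pos h2, if_pos h3, ← mul_assoc, Finset.mul_prod_erase _ _ hY]
        congr 2
        ext j
        simp only [Finset.mem_sdiff, Finset.mem_erase, Finset.mem_insert]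
        by_cases hij : j = i
        · subst hij
          simp [hi, hY]
        · simp [hij]
      · have h3 : ¬ Y ⊆ insert i s := by
          intro h
          apply h2
          intro j hj
          rw [Finset.mem_erase] at hj
          exact (Finset.mem_insert.1 (h hj.2)).resolve_left hj.1
        rw [if_neg h2, if_neg h3, mul_zero]
    · rw [if_neg hY, mul_zero, add_zero]
      by_cases h2 : Y ⊆ s
      · rw [if_pos h2, if_pos (h2.trans (Finset.subset_insert _ _)),
          Finset.insert_sdiff_of_notMem _ hY, Finset.prod_insert]
        · ring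
        · rw [Finset.mem_sdiff]
          exact fun h => hi h.1
      · have h3 : ¬ Y ⊆ insert i s := by
          intro h
          apply h2
          intro j hj
          refine (Finset.mem_insert.1 (h hj)).resolve_left ?_
          rintro rfl
          exact hY hj
        rw [if_neg h2, if_neg h3, mul_zero]

/-- the second elementary symmetric polynomial of three elements -/
def e2 (f g h : S) : S := f * g + f * h + g * h

/-- private rows -/
lemma cf_triples (f : J → Fin 3 → S) :
    cf Finset.univ (∏ j, ∏ m, (X j + C (f j m))) = ∏ j, e2 (f j 0) (f j 1) (f j 2) := by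
  have h1 : ∀ j : J, ∏ m, (X j + C (f j m)) = C (f j 0 * f j 1 * f j 2) +
      C (e2 (f j 0) (f j 1) (f j 2)) * X j +
      X j ^ 2 * (X j + C (f j 0 + f j 1 + f j 2)) := by
    intro j
    rw [Fin.prod_univ_three, e2]
    simp only [map_mul, map_add]
    ring
  rw [Finset.prod_congr rfl (fun j _ => h1 j), cf_prod_local, if_pos (Finset.subset_univ _),
    Finset.sdiff_self, Finset.prod_empty, mul_one]

lemma cf_prod_X_mul (T : Finset J) (q : MvPolynomial J S) (Y : Finset J) :
    cf Y ((∏ j ∈ T, X j) * q) = if T ⊆ Y then cf (Y \ T) q else 0 := by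
  induction T using Finset.induction_on generalizing Y with
  | empty => simp
  | insert i T hi ih =>
    rw [Finset.prod_insert hi, mul_assoc, cf_X_mul, ih]
    by_cases hY : i ∈ Y
    · rw [if_pos hY]
      by_cases hT : T ⊆ Y
      · have h1 : T ⊆ Y.erase i := by
          intro j hj
          rw [Finset.mem_erase]
          refine ⟨?_, hT hj⟩
          rintro rfl
          exact hi hj
        rw [if_pos h1, if_pos (Finset.insert_subset hY hT)]
        congr 1
        ext j
        simp only [Finset.mem_sdiff, Finset.mem_erase, Finset.mem_insert]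
        tauto
      · rw [if_neg (fun h => hT (h.trans (Finset.erase_subset _ _))), if_neg]
        exact fun h => hT ((Finset.subset_insert _ _).trans h)
    · rw [if_neg hY, if_neg]
      exact fun h => hY (h (Finset.mem_insert_self _ _))

/-- powers of the sum of all variables -/
lemma cf_sum_pow (m : ℕ) :
    cf Finset.univ ((lin fun _ => 1 : MvPolynomial J S) ^ m) =
      if m = Fintype.card J then (m.factorial : S) else 0 := by
  have h1 := cf_pow_mul (S := S) (fun _ : J => 1) 1 m Finset.univ
  rw [mul_one] at h1
  rw [h1]
  have h2 : ∀ T ∈ (Finset.univ : Finset J).powerset, T ≠ Finset.univ →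
      (if T.card = m then (∏ j ∈ T, (1 : S)) * cf (Finset.univ \ T) 1 else 0) = 0 := by
    intro T _ hT
    have h3 : ¬ (Finset.univ \ T = ∅) := by
      intro h
      rw [Finset.sdiff_eq_empty_iff_subset] at h
      exact hT (Finset.univ_subset_iff.1 h)
    rw [cf_one, if_neg h3, mul_zero]
    split_ifs <;> rfl
  rw [Finset.sum_eq_single_of_mem Finset.univ (Finset.mem_powerset_self _) h2, Finset.card_univ,
    Finset.sdiff_self, cf_one, if_pos rfl, Finset.prod_const_one, one_mul]
  by_cases h : Fintype.card J = m
  · rw [if_pos h, if_pos h.symm, mul_one]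
  · rw [if_neg h, if_neg (fun h' => h h'.symm), mul_zero]

/-- the rows which are only counted -/
lemma cf_count (p q : J → S) (k : ℕ) (hk : k ≤ Fintype.card J) :
    cf Finset.univ ((lin fun _ => 1 : MvPolynomial J S) ^ k *
      ∏ i, (C (p i) + C (q i) * lin fun _ => 1)) =
      (Fintype.card J).factorial * ∑ T ∈ Finset.powersetCard k (Finset.univ : Finset J),
        (∏ i ∈ T, p i) * ∏ i ∈ Finset.univ \ T, q i := by
  rw [Finset.prod_add, Finset.mul_sum, cf_sum, Finset.powersetCard_eq_filter,
    Finset.sum_filter, Finset.mul_sum]
  apply Finset.sum_congr rfl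
  intro T _
  have h1 : (lin fun _ => 1 : MvPolynomial J S) ^ k *
      ((∏ i ∈ T, C (p i)) * ∏ i ∈ Finset.univ \ T, (C (q i) * lin fun _ => 1)) =
      C ((∏ i ∈ T, p i) * ∏ i ∈ Finset.univ \ T, q i) *
        (lin fun _ => 1) ^ (k + (Finset.univ \ T).card) := by
    rw [Finset.prod_mul_distrib, Finset.prod_const, map_mul, map_prod, map_prod, pow_add]
    ring
  have hT := Finset.card_le_univ T
  have hc : (Finset.univ \ T).card = Fintype.card J - T.card := by
    rw [Finset.card_sdiff, Finset.inter_univ, Finset.card_univ]
  rw [h1, cf_C_mul, cf_sum_pow, hc]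
  by_cases h : T.card = k
  · rw [if_pos h, if_pos (by omega)]
    have h2 : k + (Fintype.card J - T.card) = Fintype.card J := by omega
    rw [h2, mul_comm]
  · rw [if_neg h, if_neg (by omega), mul_zero, mul_zero]

/-- the rows which are counted and linked -/
lemma cf_linked (e : J → S) (T : Finset J) :
    cf Finset.univ ((lin fun _ => 1 : MvPolynomial J S) ^ (Fintype.card J - T.card) *
      ∏ i ∈ T, (-((X i + C (e i)) ^ 2))) =
      (Fintype.card J - T.card).factorial * ∏ i ∈ T, (-2 * e i) := by
  have h1 : ∀ i ∈ T, (-((X i + C (e i)) ^ 2) : MvPolynomial J S) =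
      C (-(e i ^ 2)) + C (-2 * e i) * X i + X i ^ 2 * (-1) := by
    intro i _
    simp only [map_neg, map_mul, map_pow]
    have h2 : (C (2 : S) : MvPolynomial J S) = 2 := map_ofNat C 2
    rw [h2]
    ring
  rw [Finset.prod_congr rfl h1, cf_pow_mul]
  congr 1
  have hT := Finset.card_le_univ T
  have hc : (Finset.univ \ T).card = Fintype.card J - T.card := by
    rw [Finset.card_sdiff, Finset.inter_univ, Finset.card_univ]
  rw [Finset.sum_eq_single (Finset.univ \ T)]
  · rw [if_pos hc, Finset.prod_const_one, one_mul, cf_prod_local]
    have h2 : (Finset.univ : Finset J) \ (Finset.univ \ T) = T := by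
      ext j
      simp
    rw [h2, if_pos (Finset.Subset.refl _), Finset.sdiff_self, Finset.prod_empty, mul_one]
  · intro U _ hU
    split_ifs with h2
    · rw [cf_prod_local, if_neg, mul_zero]
      intro h3
      apply hU
      have h4 : (Finset.univ \ U).card = T.card := by
        rw [Finset.card_sdiff, Finset.inter_univ, Finset.card_univ]
        have := Finset.card_le_univ U
        omega
      have h5 := Finset.eq_of_subset_of_card_le h3 h4.ge
      rw [← h5]
      ext j
      simp
    · rfl
  · intro h
    exact absurd (Finset.mem_powerset.2 (Finset.subset_univ _)) h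

end basic

end Pool.Agent.V7H63.Gad
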