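import Pool.Agent.V7H63.Gad.Basic

/-!
# The chain gadget and the window of columns
-/

set_option autoImplicit false

open MvPolynomial Finset

namespace Pool.Agent.V7H63.Gad

open Pool.Agent.V7H63.Deg

universe u

section quad

variable {J : Type} [Fintype J] [DecidableEq J] {A : Type u} [CommRing A]

/-- a quadratic form in two of the variables -/
noncomputable def quad (a b : J) (v u w : A) : MvPolynomial J A :=
  -(X a ^ 2) - X b ^ 2 + C v * X a + C u * X b + C w

lemma cf_quad (Y : Finset J) (a b : J) (v u w : A) (q : MvPolynomial J A) :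
    cf Y (quad a b v u w * q) = (if a ∈ Y then v * cf (Y.erase a) q else 0) +
      (if b ∈ Y then u * cf (Y.erase b) q else 0) + w * cf Y q := by
  have h1 : quad a b v u w * q = -(X a ^ 2 * q) - X b ^ 2 * q + C v * (X a * q) +
      C u * (X b * q) + C w * q := by
    rw [quad]
    ring
  rw [h1, cf_add, cf_add, cf_add, cf_sub, cf_neg, cf_X_sq_mul, cf_X_sq_mul, cf_C_mul, cf_C_mul,
    cf_C_mul, cf_X_mul, cf_X_mul, mul_ite, mul_ite, mul_zero, mul_zero, neg_zero, sub_zero,
    zero_add]

lemma cf_quad_card {I : Type} [DecidableEq I] (a b : I → J) (v u w : I → A) (s : Finset I)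
    (Y : Finset J) (h : s.card < Y.card) :
    cf Y (∏ t ∈ s, quad (a t) (b t) (v t) (u t) (w t)) = 0 := by
  induction s using Finset.induction_on generalizing Y with
  | empty =>
    rw [Finset.prod_empty, cf_one, if_neg]
    rintro rfl
    simp at h
  | insert t s ht ih =>
    rw [Finset.card_insert_of_notMem ht] at h
    rw [Finset.prod_insert ht, cf_quad, ih Y (by omega), mul_zero, add_zero]
    have h1 : ∀ c ∈ Y, cf (Y.erase c) (∏ t ∈ s, quad (a t) (b t) (v t) (u t) (w t)) = 0 := by
      intro c hc
      apply ih
      rw [Finset.card_erase_of_mem hc]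
      omega
    have h2 : ∀ (x : A) (c : J), (if c ∈ Y then x * cf (Y.erase c)
        (∏ t ∈ s, quad (a t) (b t) (v t) (u t) (w t)) else 0) = 0 := by
      intro x c
      split_ifs with hc
      · rw [h1 c hc, mul_zero]
      · rfl
    rw [h2, h2, add_zero]

lemma cf_quad_free {I : Type} [DecidableEq I] (a b : I → J) (v u w : I → A) (s : Finset I)
    (Y : Finset J) (i : J) (hi : i ∈ Y) (h : ∀ t ∈ s, a t ≠ i ∧ b t ≠ i) :
    cf Y (∏ t ∈ s, quad (a t) (b t) (v t) (u t) (w t)) = 0 := by
  induction s using Finset.induction_on generalizing Y with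
  | empty =>
    rw [Finset.prod_empty, cf_one, if_neg]
    rintro rfl
    simp at hi
  | insert t s ht ih =>
    have h0 : ∀ t ∈ s, a t ≠ i ∧ b t ≠ i := fun t' ht' => h t' (Finset.mem_insert_of_mem ht')
    have h3 := h t (Finset.mem_insert_self _ _)
    rw [Finset.prod_insert ht, cf_quad, ih Y hi h0, mul_zero, add_zero]
    have h2 : ∀ (x : A) (c : J), c ≠ i → (if c ∈ Y then x * cf (Y.erase c)
        (∏ t ∈ s, quad (a t) (b t) (v t) (u t) (w t)) else 0) = 0 := by
      intro x c hc
      split_ifs
      · rw [ih (Y.erase c) (Finset.mem_erase.2 ⟨hc.symm, hi⟩) h0, mul_zero]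
      · rfl
    rw [h2 _ _ h3.1, h2 _ _ h3.2, add_zero]

end quad

section chain

variable {A : Type u} [CommRing A] {r : ℕ}

/-- the chain of quadratic forms selects a window -/
lemma cf_chain (v u w : Fin r → A) (δ : Fin (r + 1)) :
    cf (Finset.univ.erase δ) (∏ t : Fin r, quad t.castSucc t.succ (v t) (u t) (w t)) =
      ∏ t : Fin r, if t.1 < δ.1 then v t else u t := by
  have key : ∀ d m : ℕ, m + d = r →
      cf (Finset.univ.filter fun i : Fin (r + 1) => m ≤ i.1 ∧ i.1 ≠ max m δ.1)
        (∏ t ∈ Finset.univ.filter (fun t : Fin r => m ≤ t.1),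
          quad t.castSucc t.succ (v t) (u t) (w t)) =
      ∏ t ∈ Finset.univ.filter (fun t : Fin r => m ≤ t.1), if t.1 < δ.1 then v t else u t := by
    intro d
    induction d with
    | zero =>
      intro m hm
      have h1 : (Finset.univ.filter fun t : Fin r => m ≤ t.1) = ∅ := by
        ext t
        have := t.2
        simp only [Finset.mem_filter, Finset.mem_univ, true_and, Finset.notMem_empty, iff_false]
        omega
      have h2 : (Finset.univ.filter fun i : Fin (r + 1) => m ≤ i.1 ∧ i.1 ≠ max m δ.1) = ∅ := by
        ext i
        have := i.2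
        have := δ.2
        simp only [Finset.mem_filter, Finset.mem_univ, true_and, Finset.notMem_empty, iff_false]
        omega
      rw [h1, h2, Finset.prod_empty, Finset.prod_empty, cf_one, if_pos rfl]
    | succ d ih =>
      intro m hm
      have hmr : m < r := by omega
      have h1 : (Finset.univ.filter fun t : Fin r => m ≤ t.1) =
          insert ⟨m, hmr⟩ (Finset.univ.filter fun t : Fin r => m + 1 ≤ t.1) := by
        ext t
        simp only [Finset.mem_filter, Finset.mem_univ, true_and, Finset.mem_insert, Fin.ext_iff]
        omega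
      have h2 : (⟨m, hmr⟩ : Fin r) ∉ Finset.univ.filter fun t : Fin r => m + 1 ≤ t.1 := by
        simp
      have hcard : (Finset.univ.filter fun t : Fin r => m + 1 ≤ t.1).card = r - (m + 1) := by
        have h3 : (Finset.univ.filter fun t : Fin r => m + 1 ≤ t.1).card +
            (Finset.univ.filter fun t : Fin r => ¬ (m + 1 ≤ t.1)).card = r := by
          rw [Finset.card_filter_add_card_filter_not, Finset.card_univ, Fintype.card_fin]
        have h4 : (Finset.univ.filter fun t : Fin r => ¬ (m + 1 ≤ t.1)).card = m + 1 := by
          have h5 : (Finset.univ.filter fun t : Fin r => ¬ (m + 1 ≤ t.1)) =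
              Finset.univ.filter fun t : Fin r => t.1 < m + 1 := by
            ext t
            simp only [Finset.mem_filter, Finset.mem_univ, true_and]
            omega
          rw [h5, Fin.card_filter_val_lt]
          omega
        omega
      have hY : (Finset.univ.filter fun i : Fin (r + 1) => m ≤ i.1 ∧ i.1 ≠ max m δ.1).card =
          r - m := by
        have h3 : (Finset.univ.filter fun i : Fin (r + 1) => m ≤ i.1 ∧ i.1 ≠ max m δ.1) =
            (Finset.univ.filter fun i : Fin (r + 1) => m ≤ i.1).erase
              ⟨max m δ.1, by have := δ.2; omega⟩ := by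
          ext i
          simp only [Finset.mem_filter, Finset.mem_univ, true_and, Finset.mem_erase, ne_eq,
            Fin.ext_iff]
          omega
        have h4 : (Finset.univ.filter fun i : Fin (r + 1) => m ≤ i.1).card = r + 1 - m := by
          have h6 : (Finset.univ.filter fun t : Fin (r + 1) => m ≤ t.1).card +
              (Finset.univ.filter fun t : Fin (r + 1) => ¬ (m ≤ t.1)).card = r + 1 := by
            rw [Finset.card_filter_add_card_filter_not, Finset.card_univ, Fintype.card_fin]
          have h7 : (Finset.univ.filter fun t : Fin (r + 1) => ¬ (m ≤ t.1)).card = m := by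
            have h5 : (Finset.univ.filter fun t : Fin (r + 1) => ¬ (m ≤ t.1)) =
                Finset.univ.filter fun t : Fin (r + 1) => t.1 < m := by
              ext t
              simp only [Finset.mem_filter, Finset.mem_univ, true_and]
              omega
            rw [h5, Fin.card_filter_val_lt]
            omega
          omega
        rw [h3, Finset.card_erase_of_mem, h4]
        · omega
        · simp only [Finset.mem_filter, Finset.mem_univ, true_and]
          omega
      have hz := cf_quad_card (fun t : Fin r => t.castSucc) (fun t => t.succ) v u w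
        (Finset.univ.filter fun t : Fin r => m + 1 ≤ t.1)
        (Finset.univ.filter fun i : Fin (r + 1) => m ≤ i.1 ∧ i.1 ≠ max m δ.1)
        (by rw [hcard, hY]; omega)
      rw [h1, Finset.prod_insert h2, Finset.prod_insert h2, cf_quad, hz, mul_zero, add_zero]
      have ih' := ih (m + 1) (by omega)
      by_cases hδ : m < δ.1
      · have h5 : (⟨m, hmr⟩ : Fin r).castSucc ∈
            Finset.univ.filter fun i : Fin (r + 1) => m ≤ i.1 ∧ i.1 ≠ max m δ.1 := by
          simp only [Finset.mem_filter, Finset.mem_univ, true_and, Fin.val_castSucc]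
          omega
        have h6 : (Finset.univ.filter fun i : Fin (r + 1) => m ≤ i.1 ∧ i.1 ≠ max m δ.1).erase
            (⟨m, hmr⟩ : Fin r).castSucc =
            Finset.univ.filter fun i : Fin (r + 1) => m + 1 ≤ i.1 ∧ i.1 ≠ max (m + 1) δ.1 := by
          ext i
          simp only [Finset.mem_filter, Finset.mem_univ, true_and, Finset.mem_erase, ne_eq,
            Fin.ext_iff, Fin.val_castSucc]
          omega
        rw [if_pos h5, if_pos hδ, h6, ih']
        have h7 : (if (⟨m, hmr⟩ : Fin r).succ ∈
            Finset.univ.filter (fun i : Fin (r + 1) => m ≤ i.1 ∧ i.1 ≠ max m δ.1) then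
            u ⟨m, hmr⟩ * cf ((Finset.univ.filter
              (fun i : Fin (r + 1) => m ≤ i.1 ∧ i.1 ≠ max m δ.1)).erase (⟨m, hmr⟩ : Fin r).succ)
              (∏ t ∈ Finset.univ.filter (fun t : Fin r => m + 1 ≤ t.1),
                quad t.castSucc t.succ (v t) (u t) (w t)) else 0) = 0 := by
          split_ifs with h8
          · rw [cf_quad_free (fun t : Fin r => t.castSucc) (fun t => t.succ) v u w _ _
              (⟨m, hmr⟩ : Fin r).castSucc, mul_zero]
            · rw [Finset.mem_erase]
              refine ⟨?_, h5⟩
              intro h9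
              rw [Fin.ext_iff, Fin.val_castSucc, Fin.val_succ] at h9
              simp at h9
            · intro t ht
              simp only [Finset.mem_filter, Finset.mem_univ, true_and] at ht
              constructor
              · intro h9
                rw [Fin.ext_iff, Fin.val_castSucc, Fin.val_castSucc] at h9
                simp only at h9
                omega
              · intro h9
                rw [Fin.ext_iff, Fin.val_castSucc, Fin.val_succ] at h9
                simp only at h9
                omega
          · rfl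
        rw [h7, add_zero]
      · have h5 : (⟨m, hmr⟩ : Fin r).castSucc ∉
            Finset.univ.filter fun i : Fin (r + 1) => m ≤ i.1 ∧ i.1 ≠ max m δ.1 := by
          simp only [Finset.mem_filter, Finset.mem_univ, true_and, Fin.val_castSucc]
          omega
        have h5' : (⟨m, hmr⟩ : Fin r).succ ∈
            Finset.univ.filter fun i : Fin (r + 1) => m ≤ i.1 ∧ i.1 ≠ max m δ.1 := by
          simp only [Finset.mem_filter, Finset.mem_univ, true_and, Fin.val_succ]
          omega
        have h6 : (Finset.univ.filter fun i : Fin (r + 1) => m ≤ i.1 ∧ i.1 ≠ max m δ.1).erase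
            (⟨m, hmr⟩ : Fin r).succ =
            Finset.univ.filter fun i : Fin (r + 1) => m + 1 ≤ i.1 ∧ i.1 ≠ max (m + 1) δ.1 := by
          ext i
          simp only [Finset.mem_filter, Finset.mem_univ, true_and, Finset.mem_erase, ne_eq,
            Fin.ext_iff, Fin.val_succ]
          omega
        rw [if_neg h5, if_pos h5', if_neg hδ, h6, ih', zero_add]
  have h0 := key r 0 (by omega)
  have h1 : (Finset.univ.filter fun t : Fin r => 0 ≤ t.1) = Finset.univ := by
    ext t
    simp
  have h2 : (Finset.univ.filter fun i : Fin (r + 1) => 0 ≤ i.1 ∧ i.1 ≠ max 0 δ.1) =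
      Finset.univ.erase δ := by
    ext i
    simp only [Finset.mem_filter, Finset.mem_univ, true_and, Finset.mem_erase, ne_eq,
      Fin.ext_iff, Nat.zero_le, Nat.zero_max, and_true]
  rw [h1, h2] at h0
  exact h0

/-- the window of columns which is selected by `δ` -/
lemma prod_window {M : Type u} [CommMonoid M] (g : ℕ → M) (δ : ℕ) (hδ : δ ≤ r) :
    (∏ t : Fin r, if t.1 < δ then g (t.1 + r) else g t.1) = ∏ j : Fin r, g (δ + j.1) := by
  rw [Fin.prod_univ_eq_prod_range (fun t => if t < δ then g (t + r) else g t) r,
    Fin.prod_univ_eq_prod_range (fun t => g (δ + t)) r]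
  have h1 : ∏ t ∈ Finset.range r, (if t < δ then g (t + r) else g t) =
      (∏ t ∈ Finset.range δ, g (t + r)) * ∏ t ∈ Finset.Ico δ r, g t := by
    rw [← Finset.prod_range_mul_prod_Ico _ hδ]
    congr 1
    · apply Finset.prod_congr rfl
      intro t ht
      rw [if_pos (Finset.mem_range.1 ht)]
    · apply Finset.prod_congr rfl
      intro t ht
      rw [if_neg (by have := Finset.mem_Ico.1 ht; omega)]
  have h2 : ∏ t ∈ Finset.range r, g (δ + t) = ∏ t ∈ Finset.Ico δ (δ + r), g t := by
    rw [Finset.prod_Ico_eq_prod_range]
    congr 1
    congr 1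
    omega
  have h3 : ∏ t ∈ Finset.range δ, g (t + r) = ∏ t ∈ Finset.Ico r (δ + r), g t := by
    rw [Finset.prod_Ico_eq_prod_range]
    have h4 : δ + r - r = δ := by omega
    rw [h4]
    apply Finset.prod_congr rfl
    intro t _
    rw [add_comm]
  rw [h1, h2, h3, mul_comm, Finset.prod_Ico_consecutive _ hδ (by omega)]

end chain

end Pool.Agent.V7H63.Gad
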