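import Pool.Agent.V7H63.Gad.Matrix
import Pool.Agent.V7H63.Perm.Place

/-!
# Windows as combinations of partial derivatives of the permanent
-/

set_option autoImplicit false

open MvPolynomial Finset

namespace Pool.Agent.V7H63.Gad

open Pool.Agent.V7H63.Deg

universe u

section span

variable {K : Type u} [Field K] {R : Type u} [CommRing R] [Algebra K R] {I : Type}
  [DecidableEq I]

/-- the span of the monomials of a degree -/
def mon (K : Type u) [Field K] {R : Type u} [CommRing R] [Algebra K R] (θ σ : R) (m : ℕ) :
    Submodule K R :=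
  Submodule.span K {h | ∃ i j, i + j = m ∧ h = θ ^ i * σ ^ j}

lemma mon_mul (θ σ : R) (y : K) (m : ℕ) (h : R) (hh : h ∈ mon K θ σ m) :
    (θ + y • σ) * h ∈ mon K θ σ (m + 1) := by
  have h1 : mon K θ σ m ≤ (mon K θ σ (m + 1)).comap (LinearMap.mulLeft K (θ + y • σ)) := by
    rw [mon, Submodule.span_le]
    rintro h ⟨i, j, hij, rfl⟩
    rw [SetLike.mem_coe, Submodule.mem_comap, LinearMap.mulLeft_apply, add_mul]
    apply Submodule.add_mem
    · apply Submodule.subset_span
      exact ⟨i + 1, j, by omega, by ring⟩
    · rw [smul_mul_assoc]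
      apply Submodule.smul_mem
      apply Submodule.subset_span
      exact ⟨i, j + 1, by omega, by ring⟩
  exact h1 hh

lemma mon_prod (θ σ : R) (y : I → K) (B : Finset I) (j : ℕ) :
    (∏ b ∈ B, (θ + y b • σ)) * σ ^ j ∈ mon K θ σ (B.card + j) := by
  induction B using Finset.induction_on with
  | empty =>
    apply Submodule.subset_span
    exact ⟨0, j, by simp, by simp⟩
  | insert b B hb ih =>
    rw [Finset.prod_insert hb, Finset.card_insert_of_notMem hb, mul_assoc]
    have h1 : B.card + 1 + j = B.card + j + 1 := by omega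
    rw [h1]
    exact mon_mul θ σ (y b) _ _ ih

/-- the products with one factor omitted span all the monomials -/
lemma mon_le_span (θ σ : R) (y : I → K) (B : Finset I) (hy : Set.InjOn y B) (m : ℕ)
    (hm : B.card = m + 1) :
    mon K θ σ m ≤ Submodule.span K {h | ∃ s ∈ B, h = ∏ b ∈ B.erase s, (θ + y b • σ)} := by
  induction B using Finset.induction_on generalizing m with
  | empty => simp at hm
  | insert b0 B hb ih =>
    rw [Finset.card_insert_of_notMem hb] at hm
    have hm' : B.card = m := by omega
    set V := Submodule.span K {h | ∃ s ∈ insert b0 B,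
      h = ∏ b ∈ (insert b0 B).erase s, (θ + y b • σ)} with hV
    rcases m with _ | m
    · rw [mon, Submodule.span_le]
      rintro h ⟨i, j, hij, rfl⟩
      have hi : i = 0 := by omega
      have hj : j = 0 := by omega
      subst hi hj
      have hB : B = ∅ := Finset.card_eq_zero.1 hm'
      subst hB
      apply Submodule.subset_span
      exact ⟨b0, by simp, by simp⟩
    · have ih' := ih (fun a ha b hb => hy (by simp [Finset.mem_coe.1 ha])
        (by simp [Finset.mem_coe.1 hb])) m hm'
      have h1 : ∀ h ∈ mon K θ σ m, (θ + y b0 • σ) * h ∈ V := by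
        intro h hh
        have h2 : Submodule.span K {h | ∃ s ∈ B, h = ∏ b ∈ B.erase s, (θ + y b • σ)} ≤
            V.comap (LinearMap.mulLeft K (θ + y b0 • σ)) := by
          rw [Submodule.span_le]
          rintro h ⟨s, hs, rfl⟩
          rw [SetLike.mem_coe, Submodule.mem_comap, LinearMap.mulLeft_apply]
          apply Submodule.subset_span
          refine ⟨s, Finset.mem_insert_of_mem hs, ?_⟩
          have h3 : (insert b0 B).erase s = insert b0 (B.erase s) := by
            rw [Finset.erase_insert_of_ne]
            rintro rfl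
            exact hb hs
          rw [h3, Finset.prod_insert]
          exact fun h => hb (Finset.mem_of_mem_erase h)
        exact h2 (ih' hh)
      have hVB : ∏ b ∈ B, (θ + y b • σ) ∈ V := by
        apply Submodule.subset_span
        exact ⟨b0, Finset.mem_insert_self _ _, by rw [Finset.erase_insert hb]⟩
      have h4 : ∀ B' ⊆ B, ∀ j, B'.card + j = m + 1 →
          (∏ b ∈ B', (θ + y b • σ)) * σ ^ j - (∏ b ∈ B', (y b - y b0)) • σ ^ (m + 1) ∈ V := by
        intro B'
        induction B' using Finset.induction_on with
        | empty =>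
          intro _ j hj
          rw [Finset.card_empty, zero_add] at hj
          rw [Finset.prod_empty, Finset.prod_empty, one_mul, one_smul, hj, sub_self]
          exact Submodule.zero_mem _
        | insert b B' hbB' ihB =>
          intro hB' j hj
          rw [Finset.card_insert_of_notMem hbB'] at hj
          rw [Finset.prod_insert hbB', Finset.prod_insert hbB']
          have h5 := ihB (fun a ha => hB' (Finset.mem_insert_of_mem ha)) (j + 1) (by omega)
          have h6 := mon_prod θ σ y B' j
          have h7 : B'.card + j = m := by omega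
          rw [h7] at h6
          have h8 := h1 _ h6
          have h9 : (θ + y b • σ) * (∏ b ∈ B', (θ + y b • σ)) * σ ^ j -
              ((y b - y b0) * ∏ b ∈ B', (y b - y b0)) • σ ^ (m + 1) =
              (θ + y b0 • σ) * ((∏ b ∈ B', (θ + y b • σ)) * σ ^ j) +
              (y b - y b0) • ((∏ b ∈ B', (θ + y b • σ)) * σ ^ (j + 1) -
                (∏ b ∈ B', (y b - y b0)) • σ ^ (m + 1)) := by
            simp only [Algebra.smul_def, map_mul, map_sub]
            ring
          rw [h9]
          exact Submodule.add_mem _ h8 (Submodule.smul_mem _ _ h5)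
      have h10 : σ ^ (m + 1) ∈ V := by
        have h11 := h4 B (Finset.Subset.refl _) 0 (by omega)
        rw [pow_zero, mul_one] at h11
        have h12 : (∏ b ∈ B, (y b - y b0)) • σ ^ (m + 1) ∈ V := by
          have h13 := Submodule.sub_mem _ hVB h11
          rwa [sub_sub_cancel] at h13
        have h14 : (∏ b ∈ B, (y b - y b0)) ≠ 0 := by
          rw [Finset.prod_ne_zero_iff]
          intro b hbB
          rw [sub_ne_zero]
          intro h15
          apply hb
          have h16 := hy (Finset.mem_coe.2 (Finset.mem_insert_of_mem hbB))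
            (Finset.mem_coe.2 (Finset.mem_insert_self b0 B)) h15
          rwa [h16] at hbB
        have h15 := Submodule.smul_mem V (∏ b ∈ B, (y b - y b0))⁻¹ h12
        rwa [smul_smul, inv_mul_cancel₀ h14, one_smul] at h15
      rw [mon, Submodule.span_le]
      rintro h ⟨i, j, hij, rfl⟩
      rw [SetLike.mem_coe]
      induction i generalizing j with
      | zero =>
        rw [zero_add] at hij
        rw [pow_zero, one_mul, hij]
        exact h10
      | succ i ihi =>
        have h16 := h1 (θ ^ i * σ ^ j) (Submodule.subset_span ⟨i, j, by omega, rfl⟩)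
        have h17 := ihi (j + 1) (by omega)
        have h18 : θ ^ (i + 1) * σ ^ j = (θ + y b0 • σ) * (θ ^ i * σ ^ j) -
            y b0 • (θ ^ i * σ ^ (j + 1)) := by
          simp only [Algebra.smul_def]
          ring
        rw [h18]
        exact Submodule.sub_mem _ h16 (Submodule.smul_mem _ _ h17)

end span

section link

variable {K : Type u} [Field K] {U : Type} {r : ℕ}

lemma pi_eq_cf {B D : Type} [Fintype B] [DecidableEq B] [DecidableEq D] {S : Type u}
    [CommRing S] (x : B → D → S) (s : Finset D) (A : Finset B) (h : s.card ≤ A.card) :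
    pi x s A = cf A (∏ c ∈ s, lin fun a => x a c) := by
  induction s using Finset.induction_on generalizing A with
  | empty => rw [Deg.pi_empty, Finset.prod_empty, cf_one]
  | insert c s hc ih =>
    rw [Finset.card_insert_of_notMem hc] at h
    rw [pi_insert x s c hc, pi_eq_zero x s A (by omega), zero_add, Finset.prod_insert hc,
      cf_lin_mul]
    apply Finset.sum_congr rfl
    intro a ha
    rw [ih]
    rw [Finset.card_erase_of_mem ha]
    omega

lemma card_row : Fintype.card (Row r) = 7 * r + 1 := by
  simp only [Fintype.card_sum, Fintype.card_fin]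
  ring

lemma card_col : Fintype.card (Col r) = 7 * r + 1 := by
  simp only [Fintype.card_sum, Fintype.card_prod, Fintype.card_fin]
  ring

/-- the point of the matrix -/
noncomputable def pt (x E : Fin r → ℕ → MvPolynomial U K) (y : Fin (r + 1) → MvPolynomial U K) :
    Unit × Row r × Col r → MvPolynomial U K := fun v => mat x E y v.2.2 v.2.1

lemma deriv_val (x E : Fin r → ℕ → MvPolynomial U K) (y : Fin (r + 1) → MvPolynomial U K)
    (δ s : Fin (r + 1)) :
    aeval (pt x E y) (pderiv ((), Sum.inr (Sum.inl δ), Sum.inr s)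
      (pi (gx K ()) (Finset.univ : Finset (Col r)) (Finset.univ : Finset (Row r)))) =
    fun1 x E δ (∏ s' ∈ Finset.univ.erase s, lin (lastc (y s'))) := by
  rw [pderiv_pi _ _ _ _ _ (Finset.mem_univ _) (Finset.mem_univ _)]
  have h1 := map_pi (aeval (pt x E y) : MvPolynomial (Unit × Row r × Col r) K →ₐ[K] _).toRingHom
    (gx K ()) ((Finset.univ : Finset (Col r)).erase (Sum.inr s))
    ((Finset.univ : Finset (Row r)).erase (Sum.inr (Sum.inl δ)))
  refine h1.trans ?_
  have h2 : ∀ (a : Row r) (c : Col r),
      (aeval (pt x E y) : MvPolynomial (Unit × Row r × Col r) K →ₐ[K] _).toRingHom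
        (gx K () a c) = mat x E y c a := by
    intro a c
    show aeval (pt x E y) (X ((), a, c)) = _
    rw [aeval_X]
    rfl
  simp only [h2]
  rw [pi_eq_cf]
  · have h3 : ∏ c ∈ (Finset.univ : Finset (Col r)).erase (Sum.inr s),
        lin (fun a => mat x E y c a) =
        (∏ j : Jp r, ∏ m : Fin 3, lin (Sum.elim (Pi.single j 1) (rest x E j m))) *
          ∏ s' ∈ Finset.univ.erase s, lin (Sum.elim 0 (lastc (y s'))) := by
      have h4 : (Finset.univ : Finset (Col r)).erase (Sum.inr s) =
          Finset.univ.disjSum (Finset.univ.erase s) := by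
        ext c
        rcases c with c | c <;> simp
      rw [h4, Finset.prod_disjSum, Fintype.prod_prod_type]
      rfl
    have h5 : (Finset.univ : Finset (Row r)).erase (Sum.inr (Sum.inl δ)) =
        Finset.univ.disjSum (Finset.univ.erase (Sum.inl δ)) := by
      ext c
      rcases c with c | c <;> simp
    rw [h3, h5, cf_sum_type, map_mul, map_prod, map_prod]
    have h6 : ∀ j : Jp r, sumAlgEquiv (MvPolynomial U K) (Jp r) (K1 r)
        (∏ m : Fin 3, lin (Sum.elim (Pi.single j 1) (rest x E j m))) =
        ∏ m : Fin 3, (X j + C (lin (rest x E j m))) := by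
      intro j
      rw [map_prod]
      apply Finset.prod_congr rfl
      intro m _
      rw [alg_single_add]
    have h7 : ∀ s' : Fin (r + 1), sumAlgEquiv (MvPolynomial U K) (Jp r) (K1 r)
        (lin (Sum.elim 0 (lastc (y s')))) = C (lin (lastc (y s'))) := fun s' => alg_inr _
    rw [Finset.prod_congr rfl (fun j _ => h6 j), Finset.prod_congr rfl (fun j _ => h7 j),
      ← map_prod, cf_mul_C, cf_triples, fun1]
  · rw [Finset.card_erase_of_mem (Finset.mem_univ _), Finset.card_erase_of_mem
      (Finset.mem_univ _), Finset.card_univ, Finset.card_univ, card_row, card_col]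

lemma fun1_add (x E : Fin r → ℕ → MvPolynomial U K) (δ : Fin (r + 1))
    (p q : MvPolynomial (K1 r) (MvPolynomial U K)) :
    fun1 x E δ (p + q) = fun1 x E δ p + fun1 x E δ q := by
  rw [fun1, mul_add, cf_add]
  rfl

lemma fun1_smul (x E : Fin r → ℕ → MvPolynomial U K) (δ : Fin (r + 1)) (c : K)
    (p : MvPolynomial (K1 r) (MvPolynomial U K)) :
    fun1 x E δ (c • p) = c • fun1 x E δ p := by
  have h1 : c • p = C (C c) * p := by
    rw [← smul_eq_C_mul, ← algebraMap_eq, algebraMap_smul]
  rw [h1, fun1, mul_left_comm, cf_C_mul, smul_eq_C_mul]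
  rfl

/-- **The windows are combinations of partial derivatives.** -/
lemma exists_comb (x E : Fin r → ℕ → MvPolynomial U K) (y : Fin (r + 1) → K)
    (hy : Function.Injective y) (h2 : (2 : K) ≠ 0) (hr : (r.factorial : K) ≠ 0) (k : ℕ)
    (hk : k ≤ r) : ∃ c : Fin (r + 1) → K, ∀ δ : Fin (r + 1),
      win x E δ k = ∑ s, c s • aeval (pt x E fun s => C (y s))
        (pderiv ((), Sum.inr (Sum.inl δ), Sum.inr s)
          (pi (gx K ()) (Finset.univ : Finset (Col r)) (Finset.univ : Finset (Row r)))) := by
  set θ : MvPolynomial (K1 r) (MvPolynomial U K) := lin (low vt) with hθ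
  set σ : MvPolynomial (K1 r) (MvPolynomial U K) := lin (low vs) with hσ
  have hlast : ∀ s : Fin (r + 1), lin (lastc (C (y s) : MvPolynomial U K)) = θ + y s • σ := by
    intro s
    have h3 : (low (vt + (C (y s) : MvPolynomial U K) • vs) : K1 r → MvPolynomial U K) =
        low vt + (C (y s) : MvPolynomial U K) • low vs := by
      funext j
      rcases j with j | j
      · show (0 : MvPolynomial U K) = 0 + (C (y s) : MvPolynomial U K) • (0 : MvPolynomial U K)
        rw [smul_zero, add_zero]
      · rfl
    rw [lastc, h3, lin_add, lin_smul, hθ, hσ]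
    congr 1
    rw [← smul_eq_C_mul, ← algebraMap_eq, algebraMap_smul]
  have h4 := mon_le_span (K := K) θ σ y Finset.univ (hy.injOn) r (by
    rw [Finset.card_univ, Fintype.card_fin])
  have h5 : θ ^ (r - k) * σ ^ k ∈ mon K θ σ r := Submodule.subset_span ⟨r - k, k, by omega, rfl⟩
  have h6 := h4 h5
  have h7 : ∃ c : Fin (r + 1) → K, θ ^ (r - k) * σ ^ k =
      ∑ s, c s • ∏ b ∈ Finset.univ.erase s, (θ + y b • σ) := by
    have h8 : {h | ∃ s ∈ (Finset.univ : Finset (Fin (r + 1))),
        h = ∏ b ∈ Finset.univ.erase s, (θ + y b • σ)} =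
        Set.range fun s => ∏ b ∈ Finset.univ.erase s, (θ + y b • σ) := by
      ext h
      simp only [Finset.mem_univ, true_and, Set.mem_setOf_eq, Set.mem_range]
      constructor
      · rintro ⟨s, hs⟩
        exact ⟨s, hs.symm⟩
      · rintro ⟨s, hs⟩
        exact ⟨s, hs.symm⟩
    rw [h8, Submodule.mem_span_range_iff_exists_fun] at h6
    obtain ⟨c, hc⟩ := h6
    exact ⟨c, hc.symm⟩
  obtain ⟨c, hc⟩ := h7
  set a : K := r.factorial * ((r - k).factorial * ((-2) ^ r * (-2) ^ r)) with ha
  have ha0 : a ≠ 0 := by
    rw [ha]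
    refine mul_ne_zero hr (mul_ne_zero ?_ (mul_ne_zero ?_ ?_))
    · intro h
      apply hr
      obtain ⟨t, ht⟩ := Nat.factorial_dvd_factorial (show r - k ≤ r by omega)
      rw [ht, Nat.cast_mul, h, zero_mul]
    · exact pow_ne_zero _ (neg_ne_zero.2 h2)
    · exact pow_ne_zero _ (neg_ne_zero.2 h2)
  refine ⟨fun s => a⁻¹ * c s, fun δ => ?_⟩
  have h9 := fun1_eq x E δ k hk
  rw [← hθ, ← hσ, hc] at h9
  have h10 : fun1 x E δ (∑ s, c s • ∏ b ∈ Finset.univ.erase s, (θ + y b • σ)) =
      ∑ s, c s • fun1 x E δ (∏ b ∈ Finset.univ.erase s, (θ + y b • σ)) := by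
    let L : MvPolynomial (K1 r) (MvPolynomial U K) →ₗ[K] MvPolynomial U K :=
      { toFun := fun1 x E δ
        map_add' := fun1_add x E δ
        map_smul' := fun1_smul x E δ }
    show L _ = _
    rw [map_sum]
    apply Finset.sum_congr rfl
    intro s _
    rw [map_smul]
    rfl
  rw [h10] at h9
  have h11 : ∀ s : Fin (r + 1), aeval (pt x E fun s => C (y s))
        (pderiv ((), Sum.inr (Sum.inl δ), Sum.inr s)
          (pi (gx K ()) (Finset.univ : Finset (Col r)) (Finset.univ : Finset (Row r)))) =
      fun1 x E δ (∏ b ∈ Finset.univ.erase s, (θ + y b • σ)) := by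
    intro s
    rw [deriv_val]
    congr 1
    apply Finset.prod_congr rfl
    intro s' _
    exact hlast s'
  simp only [h11, mul_smul]
  rw [← Finset.smul_sum, h9]
  have h12 : ((r.factorial : MvPolynomial U K) * (((r - k).factorial : MvPolynomial U K) *
      ((-2) ^ r * (-2) ^ r))) * win x E (δ : ℕ) k = a • win x E (δ : ℕ) k := by
    rw [smul_eq_C_mul, ha]
    congr 1
    simp only [map_mul, map_natCast, map_pow, map_neg, map_ofNat]
  rw [h12, smul_smul, inv_mul_cancel₀ ha0, one_smul]

/-- the permanent specialises to a smaller permanent -/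
lemma exists_subst {n : ℕ} (hn : 7 * r + 1 ≤ n) :
    ∃ y : Fin n × Fin n → MvPolynomial (Unit × Row r × Col r) K,
      (∀ v, (∃ w, y v = X w) ∨ y v = 1 ∨ y v = 0) ∧
      aeval y (Perm.permX n K) =
        pi (gx K ()) (Finset.univ : Finset (Col r)) (Finset.univ : Finset (Row r)) := by
  classical
  let P : Type := Fin (n - (7 * r + 1))
  have hrows : Fintype.card (Fin n) = Fintype.card (Row r ⊕ P) := by
    rw [Fintype.card_sum (α := Row r), card_row]
    simp only [Fintype.card_fin, P]
    omega
  have hcols : Fintype.card (Fin n) = Fintype.card (Col r ⊕ P) := by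
    rw [Fintype.card_sum (α := Col r), card_col]
    simp only [Fintype.card_fin, P]
    omega
  let eR := Fintype.equivOfCardEq hrows
  let eC := Fintype.equivOfCardEq hcols
  let M : Col r → Row r → MvPolynomial (Unit × Row r × Col r) K := fun c a => X ((), a, c)
  refine ⟨fun v => Perm.pad (P := P) M (eC v.2) (eR v.1), ?_, ?_⟩
  · intro v
    have h1 : ∀ i j, (∃ w, Perm.pad (P := P) M i j = X w) ∨ Perm.pad (P := P) M i j = 1 ∨
        Perm.pad (P := P) M i j = 0 := by
      intro i j
      rcases i with i | i <;> rcases j with j | j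
      · exact Or.inl ⟨((), j, i), rfl⟩
      · exact Or.inr (Or.inr rfl)
      · exact Or.inr (Or.inr rfl)
      · show _ ∨ (if i = j then (1 : MvPolynomial (Unit × Row r × Col r) K) else 0) = 1 ∨
          (if i = j then (1 : MvPolynomial (Unit × Row r × Col r) K) else 0) = 0
        split_ifs
        · exact Or.inr (Or.inl rfl)
        · exact Or.inr (Or.inr rfl)
    exact h1 _ _
  · rw [Perm.aeval_permX]
    have h1 := Perm.per_reindex eC eR (Perm.pad (P := P) M)
    refine h1.trans ?_
    rw [Perm.per_pad, pi_eq_cf _ _ _ (by rw [Finset.card_univ, Finset.card_univ, card_row,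
      card_col]), cf_univ, Perm.per]
    have h2 := Perm.top_prod_linear (S := MvPolynomial (Unit × Row r × Col r) K) (I := Col r)
      (J := Row r) M
    rw [← h2]
    rfl

end link

end Pool.Agent.V7H63.Gad
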