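import Pool.Agent.V7H63.Gad.Chain

/-!
# The matrix whose subpermanents are the coefficients of the windows
-/

set_option autoImplicit false

open MvPolynomial Finset

namespace Pool.Agent.V7H63.Gad

open Pool.Agent.V7H63.Deg

universe u

section linear

variable {J K : Type} [Fintype J] [DecidableEq J] [Fintype K] [DecidableEq K]
  {S : Type u} [CommRing S]

lemma lin_add (u v : J → S) : lin (u + v) = lin u + lin v := by
  rw [lin, lin, lin, ← Finset.sum_add_distrib]
  apply Finset.sum_congr rfl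
  intro j _
  rw [Pi.add_apply, map_add]
  ring

lemma lin_neg (u : J → S) : lin (-u) = -lin u := by
  rw [lin, lin, ← Finset.sum_neg_distrib]
  apply Finset.sum_congr rfl
  intro j _
  rw [Pi.neg_apply, map_neg]
  ring

lemma lin_sub (u v : J → S) : lin (u - v) = lin u - lin v := by
  rw [sub_eq_add_neg, lin_add, lin_neg, sub_eq_add_neg]

lemma lin_smul (c : S) (u : J → S) : lin (c • u) = C c * lin u := by
  rw [lin, lin, Finset.mul_sum]
  apply Finset.sum_congr rfl
  intro j _
  rw [Pi.smul_apply, smul_eq_mul, map_mul]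
  ring

lemma lin_single (i : J) : lin (Pi.single i 1 : J → S) = X i := by
  rw [lin, Finset.sum_eq_single i]
  · rw [Pi.single_eq_same, map_one, one_mul]
  · intro j _ hj
    rw [Pi.single_eq_of_ne hj, map_zero, zero_mul]
  · intro h
    exact absurd (Finset.mem_univ _) h

lemma lin_zero : lin (0 : J → S) = 0 := by
  rw [lin]
  simp

lemma lin_C_single (i : J) : lin (fun j => C ((Pi.single i 1 : J → S) j) :
    J → MvPolynomial K S) = X i := by
  have h1 : (fun j => C ((Pi.single i 1 : J → S) j) : J → MvPolynomial K S) =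
      Pi.single i 1 := by
    funext j
    by_cases h : j = i
    · subst h
      rw [Pi.single_eq_same, Pi.single_eq_same, map_one]
    · rw [Pi.single_eq_of_ne h, Pi.single_eq_of_ne h, map_zero]
  rw [h1, lin_single]

/-- a form in the second group of variables -/
lemma alg_inr (v : K → S) : sumAlgEquiv S J K (lin (Sum.elim 0 v)) = C (lin v) := by
  rw [sumAlg_lin]
  have h1 : (fun j => C ((0 : J → S) j) : J → MvPolynomial K S) = 0 := by
    funext j
    rw [Pi.zero_apply, map_zero, Pi.zero_apply]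
  rw [h1, lin_zero, zero_add]

lemma alg_single (i : J) : sumAlgEquiv S J K (lin (Sum.elim (Pi.single i 1) 0)) = X i := by
  rw [sumAlg_lin, lin_C_single, lin_zero, map_zero, add_zero]

lemma alg_ones : sumAlgEquiv S J K (lin (Sum.elim 1 0)) = lin fun _ => 1 := by
  rw [sumAlg_lin, lin_zero, map_zero, add_zero]
  congr 1

lemma alg_single_add (i : J) (v : K → S) :
    sumAlgEquiv S J K (lin (Sum.elim (Pi.single i 1) v)) = X i + C (lin v) := by
  rw [sumAlg_lin, lin_C_single]

lemma map_e2 {R R' : Type u} [CommRing R] [CommRing R'] {F : Type*} [FunLike F R R']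
    [RingHomClass F R R'] (φ : F) (f g h : R) : φ (e2 f g h) = e2 (φ f) (φ g) (φ h) := by
  rw [e2, e2, map_add, map_add, map_mul, map_mul, map_mul]

lemma univ_disj : (Finset.univ : Finset (J ⊕ K)) = Finset.univ.disjSum Finset.univ := by
  ext j
  rcases j with j | j <;> simp

/-- choosing the kind of the entry row by row -/
lemma cf_mix {D : Type} [DecidableEq D] (T : Finset J) (x E : J → D → S) (s : Finset D)
    (A : Finset J) :
    cf ((T ∩ A).disjSum (A \ T)) (∏ c ∈ s, lin (Sum.elim (fun i => x i c) fun i => E i c)) =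
      cf A (∏ c ∈ s, lin fun i => if i ∈ T then x i c else E i c) := by
  induction s using Finset.induction_on generalizing A with
  | empty =>
    rw [Finset.prod_empty, Finset.prod_empty, cf_one, cf_one]
    by_cases h : A = ∅
    · subst h
      simp
    · rw [if_neg h, if_neg]
      intro h2
      apply h
      ext i
      simp only [Finset.notMem_empty, iff_false]
      intro hi
      by_cases hT : i ∈ T
      · have h3 : (Sum.inl i : J ⊕ J) ∈ (T ∩ A).disjSum (A \ T) := by
          rw [Finset.inl_mem_disjSum, Finset.mem_inter]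
          exact ⟨hT, hi⟩
        rw [h2] at h3
        exact absurd h3 (Finset.notMem_empty _)
      · have h3 : (Sum.inr i : J ⊕ J) ∈ (T ∩ A).disjSum (A \ T) := by
          rw [Finset.inr_mem_disjSum, Finset.mem_sdiff]
          exact ⟨hi, hT⟩
        rw [h2] at h3
        exact absurd h3 (Finset.notMem_empty _)
  | insert c s hc ih =>
    rw [Finset.prod_insert hc, Finset.prod_insert hc, cf_lin_mul, cf_lin_mul,
      Finset.sum_disjSum]
    have h1 : ∀ i ∈ T ∩ A, ((T ∩ A).disjSum (A \ T)).erase (Sum.inl i) =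
        (T ∩ A.erase i).disjSum (A.erase i \ T) := by
      intro i hi
      ext j
      rcases j with j | j
      · rw [Finset.mem_erase, Finset.inl_mem_disjSum, Finset.inl_mem_disjSum]
        simp only [Finset.mem_inter, Finset.mem_erase, ne_eq, Sum.inl.injEq]
        tauto
      · rw [Finset.mem_erase, Finset.inr_mem_disjSum, Finset.inr_mem_disjSum]
        simp only [Finset.mem_sdiff, Finset.mem_erase, ne_eq, reduceCtorEq, not_false_eq_true,
          true_and]
        constructor
        · rintro ⟨h2, h3⟩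
          refine ⟨⟨?_, h2⟩, h3⟩
          rintro rfl
          exact h3 (Finset.mem_inter.1 hi).1
        · rintro ⟨⟨_, h2⟩, h3⟩
          exact ⟨h2, h3⟩
    have h2 : ∀ i ∈ A \ T, ((T ∩ A).disjSum (A \ T)).erase (Sum.inr i) =
        (T ∩ A.erase i).disjSum (A.erase i \ T) := by
      intro i hi
      ext j
      rcases j with j | j
      · rw [Finset.mem_erase, Finset.inl_mem_disjSum, Finset.inl_mem_disjSum]
        simp only [Finset.mem_inter, Finset.mem_erase, ne_eq, reduceCtorEq, not_false_eq_true,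
          true_and]
        constructor
        · rintro ⟨h2, h3⟩
          refine ⟨h2, ?_, h3⟩
          rintro rfl
          exact (Finset.mem_sdiff.1 hi).2 h2
        · rintro ⟨h2, _, h3⟩
          exact ⟨h2, h3⟩
      · rw [Finset.mem_erase, Finset.inr_mem_disjSum, Finset.inr_mem_disjSum]
        simp only [Finset.mem_sdiff, Finset.mem_erase, ne_eq, Sum.inr.injEq]
        tauto
    have h3 : ∑ i ∈ T ∩ A, Sum.elim (fun i => x i c) (fun i => E i c) (Sum.inl i) *
        cf (((T ∩ A).disjSum (A \ T)).erase (Sum.inl i))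
          (∏ c ∈ s, lin (Sum.elim (fun i => x i c) fun i => E i c)) =
        ∑ i ∈ T ∩ A, (if i ∈ T then x i c else E i c) *
          cf (A.erase i) (∏ c ∈ s, lin fun i => if i ∈ T then x i c else E i c) := by
      apply Finset.sum_congr rfl
      intro i hi
      rw [h1 i hi, ih, Sum.elim_inl, if_pos (Finset.mem_inter.1 hi).1]
    have h4 : ∑ i ∈ A \ T, Sum.elim (fun i => x i c) (fun i => E i c) (Sum.inr i) *
        cf (((T ∩ A).disjSum (A \ T)).erase (Sum.inr i))
          (∏ c ∈ s, lin (Sum.elim (fun i => x i c) fun i => E i c)) =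
        ∑ i ∈ A \ T, (if i ∈ T then x i c else E i c) *
          cf (A.erase i) (∏ c ∈ s, lin fun i => if i ∈ T then x i c else E i c) := by
      apply Finset.sum_congr rfl
      intro i hi
      rw [h2 i hi, ih, Sum.elim_inr, if_neg (Finset.mem_sdiff.1 hi).2]
    rw [h3, h4, Finset.inter_comm, ← Finset.sum_union (Finset.disjoint_left.2 (by
      intro i hi hi'
      exact (Finset.mem_sdiff.1 hi').2 (Finset.mem_inter.1 hi).2))]
    congr 1
    ext i
    simp only [Finset.mem_union, Finset.mem_inter, Finset.mem_sdiff]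
    tauto

end linear

section matrix

variable {S : Type u} [CommRing S] {r : ℕ}

/-- the private rows -/
abbrev Jp (r : ℕ) : Type := Fin r ⊕ Fin r

/-- the rows of the entries -/
abbrev K4 (r : ℕ) : Type := Fin r ⊕ Fin r

/-- the linked rows and the rows of the entries -/
abbrev K3 (r : ℕ) : Type := Fin r ⊕ K4 r

/-- the slack rows and the previous ones -/
abbrev K2 (r : ℕ) : Type := Fin r ⊕ K3 r

/-- the selecting rows and the previous ones -/
abbrev K1 (r : ℕ) : Type := Fin (r + 1) ⊕ K2 r

/-- the rows of the matrix -/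
abbrev Row (r : ℕ) : Type := Jp r ⊕ K1 r

/-- the columns of the matrix -/
abbrev Col (r : ℕ) : Type := (Jp r × Fin 3) ⊕ Fin (r + 1)

/-- a selecting row -/
def vR (i : Fin (r + 1)) : K1 r → S := Sum.elim (Pi.single i 1) 0

/-- the vector of a form in the lower rows -/
def low (v : K2 r → S) : K1 r → S := Sum.elim 0 v

/-- the sum of the linked rows, third level -/
def t3 : K3 r → S := Sum.elim 1 0

/-- a linked row, third level -/
def b3 (i : Fin r) : K3 r → S := Sum.elim (Pi.single i 1) 0

/-- a row of the first kind, third level -/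
def a3 (i : Fin r) : K3 r → S := Sum.elim 0 (Sum.elim (Pi.single i 1) 0)

/-- a row of the second kind, third level -/
def e3 (i : Fin r) : K3 r → S := Sum.elim 0 (Sum.elim 0 (Pi.single i 1))

/-- the entries of a column, fourth level -/
def x4 (x E : Fin r → ℕ → S) (j : ℕ) : K4 r → S := Sum.elim (fun i => x i j) fun i => E i j

/-- the entries of a column, third level -/
def x3 (x E : Fin r → ℕ → S) (j : ℕ) : K3 r → S := Sum.elim 0 (x4 x E j)

/-- the sum of the slack rows -/
def vs : K2 r → S := Sum.elim 1 0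

/-- the sum of the linked rows -/
def vt : K2 r → S := Sum.elim 0 t3

/-- a linked row -/
def vb (i : Fin r) : K2 r → S := Sum.elim 0 (b3 i)

/-- a row of the first kind -/
def va (i : Fin r) : K2 r → S := Sum.elim 0 (a3 i)

/-- a row of the second kind -/
def ve (i : Fin r) : K2 r → S := Sum.elim 0 (e3 i)

/-- the vector of the entries of a column -/
def vx (x E : Fin r → ℕ → S) (j : ℕ) : K2 r → S := Sum.elim 0 (x3 x E j)

/-- the columns with a private row, without the entry of this row -/
def rest (x E : Fin r → ℕ → S) : Jp r → Fin 3 → K1 r → S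
  | Sum.inl t, 0 => -vR t.castSucc - vR t.succ - low ((2 : S) • vx x E (t.1 + r))
  | Sum.inl t, 1 => vR t.castSucc - vR t.succ
  | Sum.inl t, 2 => vR t.succ + low (vx x E t.1)
  | Sum.inr i, 0 => low (va i + (ve i + vb i))
  | Sum.inr i, 1 => low (-(ve i + vb i))
  | Sum.inr i, 2 => low (ve i + vb i - (2 : S) • vs)

/-- the last columns -/
def lastc (y : S) : K1 r → S := low (vt + y • vs)

/-- the columns of the matrix -/
def mat (x E : Fin r → ℕ → S) (y : Fin (r + 1) → S) : Col r → Row r → S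
  | Sum.inl jm => Sum.elim (Pi.single jm.1 1) (rest x E jm.1 jm.2)
  | Sum.inr s => Sum.elim 0 (lastc (y s))

/-- the coefficient of `z ^ k` in the permanent of the window `δ` of `z x + E` -/
def win (x E : Fin r → ℕ → S) (δ k : ℕ) : S :=
  ∑ T ∈ Finset.powersetCard k (Finset.univ : Finset (Fin r)), ∑ e : Fin r ≃ Fin r,
    ∏ j, if e j ∈ T then x (e j) (δ + j.1) else E (e j) (δ + j.1)

/-- the linear functional which is given by the private rows and one selecting row -/
noncomputable def fun1 (x E : Fin r → ℕ → S) (δ : Fin (r + 1)) (q : MvPolynomial (K1 r) S) : S :=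
  cf (Finset.univ.erase (Sum.inl δ)) ((∏ j : Jp r, e2 (lin (rest x E j 0)) (lin (rest x E j 1))
    (lin (rest x E j 2))) * q)

lemma lin_low (v : K2 r → S) :
    sumAlgEquiv S (Fin (r + 1)) (K2 r) (lin (low v)) = C (lin v) := alg_inr v

lemma lin_vR (i : Fin (r + 1)) :
    sumAlgEquiv S (Fin (r + 1)) (K2 r) (lin (vR i)) = X i := alg_single i

lemma step1 (x E : Fin r → ℕ → S) (δ : Fin (r + 1)) (q : MvPolynomial (K2 r) S)
    (Q : MvPolynomial (K1 r) S) (hQ : sumAlgEquiv S (Fin (r + 1)) (K2 r) Q = C q) :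
    fun1 x E δ Q = cf Finset.univ ((∏ j : Fin r, (-2 * lin (vx x E (δ.1 + j.1)))) *
      ((∏ i : Fin r, (-(lin (ve i + vb i : K2 r → S) ^ 2) -
        2 * lin (va i : K2 r → S) * lin (vs : K2 r → S))) * q)) := by
  have h0 : (Finset.univ : Finset (K1 r)).erase (Sum.inl δ) =
      (Finset.univ.erase δ).disjSum Finset.univ := by
    ext j
    rcases j with j | j <;> simp
  rw [fun1, h0, cf_sum_type, map_mul, map_prod, hQ, Fintype.prod_sum_type]
  have h1 : ∀ t : Fin r, sumAlgEquiv S (Fin (r + 1)) (K2 r)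
      (e2 (lin (rest x E (Sum.inl t) 0)) (lin (rest x E (Sum.inl t) 1))
        (lin (rest x E (Sum.inl t) 2))) =
      quad t.castSucc t.succ (-2 * lin (vx x E (t.1 + r))) (-2 * lin (vx x E t.1))
        (-2 * lin (vx x E t.1) * lin (vx x E (t.1 + r))) := by
    intro t
    rw [map_e2, rest, rest, rest, lin_sub, lin_sub, lin_neg, lin_sub, lin_add, map_sub, map_sub,
      map_neg, map_sub, map_add, lin_low, lin_low, lin_vR, lin_vR, lin_smul, e2, quad]
    have h2 : (C (2 : S) : MvPolynomial (K2 r) S) = 2 := map_ofNat C 2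
    rw [h2]
    simp only [map_mul, map_neg, map_ofNat]
    ring
  have h3 : ∀ i : Fin r, sumAlgEquiv S (Fin (r + 1)) (K2 r)
      (e2 (lin (rest x E (Sum.inr i) 0)) (lin (rest x E (Sum.inr i) 1))
        (lin (rest x E (Sum.inr i) 2))) =
      C (-(lin (ve i + vb i : K2 r → S) ^ 2) -
        2 * lin (va i : K2 r → S) * lin (vs : K2 r → S)) := by
    intro i
    rw [map_e2, rest, rest, rest, lin_low, lin_low, lin_low, lin_neg, lin_sub, lin_smul,
      lin_add (va i), e2]
    have h2 : (C (2 : S) : MvPolynomial (K2 r) S) = 2 := map_ofNat C 2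
    rw [h2]
    simp only [map_mul, map_neg, map_ofNat, map_add, map_sub, map_pow]
    ring
  rw [Finset.prod_congr rfl (fun t _ => h1 t), Finset.prod_congr rfl (fun i _ => h3 i),
    ← map_prod, mul_assoc, ← map_mul, cf_mul_C, cf_chain]
  have h5 : (∏ t : Fin r, if t.1 < δ.1 then -2 * lin (vx x E (t.1 + r)) else
      -2 * lin (vx x E t.1)) = ∏ j : Fin r, (-2 * lin (vx x E (δ.1 + j.1))) :=
    prod_window (fun j => -2 * lin (vx x E j)) δ.1 (by have := δ.2; omega)
  rw [h5]

lemma step2 (x E : Fin r → ℕ → S) (δ : Fin (r + 1)) (k : ℕ) (hk : k ≤ r) :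
    cf Finset.univ ((∏ j : Fin r, (-2 * lin (vx x E (δ.1 + j.1)))) *
      ((∏ i : Fin r, (-(lin (ve i + vb i : K2 r → S) ^ 2) -
        2 * lin (va i : K2 r → S) * lin (vs : K2 r → S))) *
        (lin (vt : K2 r → S) ^ (r - k) * lin (vs : K2 r → S) ^ k))) =
    (r.factorial : S) * ∑ T ∈ Finset.powersetCard k (Finset.univ : Finset (Fin r)),
      cf Finset.univ ((∏ j : Fin r, (-2 * lin (x3 x E (δ.1 + j.1)))) *
        ((∏ i ∈ Finset.univ \ T, (-2 * lin (a3 i : K3 r → S))) *
          (lin (t3 : K3 r → S) ^ (r - k) * ∏ i ∈ T, (-(lin (e3 i + b3 i : K3 r → S) ^ 2))))) := by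
  rw [univ_disj, cf_sum_type]
  simp only [map_mul, map_prod, map_pow, map_sub, map_neg, map_ofNat]
  have hx : ∀ j, sumAlgEquiv S (Fin r) (K3 r) (lin (vx x E j)) =
      C (lin (x3 x E j)) := fun j => alg_inr _
  have hm : ∀ i : Fin r, sumAlgEquiv S (Fin r) (K3 r) (lin (ve i + vb i : K2 r → S)) =
      C (lin (e3 i + b3 i : K3 r → S)) := by
    intro i
    rw [lin_add, lin_add, map_add, map_add]
    congr 1
    · exact alg_inr _
    · exact alg_inr _
  have ha : ∀ i : Fin r, sumAlgEquiv S (Fin r) (K3 r) (lin (va i : K2 r → S)) =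
      C (lin (a3 i : K3 r → S)) := fun i => alg_inr _
  have hs : sumAlgEquiv S (Fin r) (K3 r) (lin (vs : K2 r → S)) = lin fun _ => 1 := alg_ones
  have ht : sumAlgEquiv S (Fin r) (K3 r) (lin (vt : K2 r → S)) = C (lin (t3 : K3 r → S)) :=
    alg_inr _
  simp only [hx, hm, ha, hs, ht]
  have h3 : ∀ i : Fin r, (-(C (lin (e3 i + b3 i : K3 r → S)) ^ 2) -
      2 * C (lin (a3 i : K3 r → S)) * (lin fun _ => 1) : MvPolynomial (Fin r) (MvPolynomial (K3 r) S)) =
      C (-(lin (e3 i + b3 i : K3 r → S) ^ 2)) + C (-2 * lin (a3 i : K3 r → S)) * (lin fun _ => 1) := by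
    intro i
    simp only [map_mul, map_neg, map_pow, map_ofNat]
    ring
  rw [Finset.prod_congr rfl (fun i _ => h3 i)]
  have h4 : (∏ j : Fin r, (-2 * C (lin (x3 x E (δ.1 + j.1)))) :
        MvPolynomial (Fin r) (MvPolynomial (K3 r) S)) =
      C (∏ j : Fin r, (-2 * lin (x3 x E (δ.1 + j.1)))) := by
    rw [map_prod]
    apply Finset.prod_congr rfl
    intro j _
    rw [map_mul, map_neg, map_ofNat]
  rw [h4]
  generalize (∏ j : Fin r, (-2 * lin (x3 x E (δ.1 + j.1)))) = G
  have h5 : (C G * ((∏ i : Fin r, (C (-(lin (e3 i + b3 i : K3 r → S) ^ 2)) +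
      C (-2 * lin (a3 i : K3 r → S)) * (lin fun _ => 1))) *
      (C (lin (t3 : K3 r → S)) ^ (r - k) * (lin fun _ => 1) ^ k)) :
        MvPolynomial (Fin r) (MvPolynomial (K3 r) S)) =
      C (G * lin (t3 : K3 r → S) ^ (r - k)) *
      ((lin fun _ => 1) ^ k * ∏ i : Fin r, (C (-(lin (e3 i + b3 i : K3 r → S) ^ 2)) +
      C (-2 * lin (a3 i : K3 r → S)) * (lin fun _ => 1))) := by
    rw [map_mul C G, map_pow]
    ring
  rw [h5, cf_C_mul, cf_count _ _ k (by rw [Fintype.card_fin]; exact hk), Fintype.card_fin]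
  have h6 : ∀ (a : MvPolynomial (K3 r) S), ((r.factorial : MvPolynomial (K3 r) S)) * a =
      C (r.factorial : S) * a := by
    intro a
    rw [map_natCast]
  rw [h6, mul_left_comm, cf_C_mul, Finset.mul_sum, cf_sum]
  refine congrArg (fun z => (r.factorial : S) * z) (Finset.sum_congr rfl fun T _ => ?_)
  refine congrArg (cf Finset.univ) ?_
  ring

lemma step3 (x E : Fin r → ℕ → S) (δ : Fin (r + 1)) (k : ℕ)
    (T : Finset (Fin r)) (hT : T.card = k) :
    cf Finset.univ ((∏ j : Fin r, (-2 * lin (x3 x E (δ.1 + j.1)))) *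
        ((∏ i ∈ Finset.univ \ T, (-2 * lin (a3 i : K3 r → S))) *
          (lin (t3 : K3 r → S) ^ (r - k) * ∏ i ∈ T, (-(lin (e3 i + b3 i : K3 r → S) ^ 2))))) =
    ((r - k).factorial : S) * cf Finset.univ
      ((∏ i ∈ Finset.univ \ T, (-2 * X (Sum.inl i) : MvPolynomial (K4 r) S)) *
        ((∏ i ∈ T, (-2 * X (Sum.inr i))) *
          ∏ j : Fin r, (-2 * lin (x4 x E (δ.1 + j.1))))) := by
  rw [univ_disj, cf_sum_type]
  simp only [map_mul, map_prod, map_pow, map_neg, map_ofNat]
  have hx : ∀ j, sumAlgEquiv S (Fin r) (K4 r) (lin (x3 x E j)) =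
      C (lin (x4 x E j)) := fun j => alg_inr _
  have hm : ∀ i : Fin r, sumAlgEquiv S (Fin r) (K4 r) (lin (e3 i + b3 i : K3 r → S)) =
      X i + C (X (Sum.inr i)) := by
    intro i
    have h1 : sumAlgEquiv S (Fin r) (K4 r) (lin (e3 i : K3 r → S)) = C (X (Sum.inr i)) := by
      have h2 := alg_inr (J := Fin r) (K := K4 r) (S := S) (Sum.elim 0 (Pi.single i 1))
      have h3 : (Sum.elim 0 (Pi.single i 1) : K4 r → S) = Pi.single (Sum.inr i) 1 := by
        funext j
        rcases j with j | j
        · rw [Sum.elim_inl, Pi.single_eq_of_ne (by simp)]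
          rfl
        · rw [Sum.elim_inr]
          by_cases h : j = i
          · subst h
            rw [Pi.single_eq_same, Pi.single_eq_same]
          · rw [Pi.single_eq_of_ne h, Pi.single_eq_of_ne (by simpa using h)]
      rw [h3, lin_single] at h2
      rw [← h2, ← h3]
      rfl
    have h4 : sumAlgEquiv S (Fin r) (K4 r) (lin (b3 i : K3 r → S)) = X i := alg_single i
    rw [lin_add, map_add, h1, h4, add_comm]
  have ha : ∀ i : Fin r, sumAlgEquiv S (Fin r) (K4 r) (lin (a3 i : K3 r → S)) = C (X (Sum.inl i)) := by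
    intro i
    have h2 := alg_inr (J := Fin r) (K := K4 r) (S := S) (Sum.elim (Pi.single i 1) 0)
    have h3 : (Sum.elim (Pi.single i 1) 0 : K4 r → S) = Pi.single (Sum.inl i) 1 := by
      funext j
      rcases j with j | j
      · rw [Sum.elim_inl]
        by_cases h : j = i
        · subst h
          rw [Pi.single_eq_same, Pi.single_eq_same]
        · rw [Pi.single_eq_of_ne h, Pi.single_eq_of_ne (by simpa using h)]
      · rw [Sum.elim_inr, Pi.single_eq_of_ne (by simp)]
        rfl
    rw [h3, lin_single] at h2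
    rw [← h2, ← h3]
    rfl
  have hs : sumAlgEquiv S (Fin r) (K4 r) (lin (t3 : K3 r → S)) = lin fun _ => 1 := alg_ones
  simp only [hx, hm, ha, hs]
  have h4 : ((∏ j : Fin r, (-2 * C (lin (x4 x E (δ.1 + j.1))))) *
      ((∏ i ∈ Finset.univ \ T, (-2 * C (X (Sum.inl i) : MvPolynomial (K4 r) S))) *
        ((lin fun _ => 1) ^ (r - k) * ∏ i ∈ T, (-((X i + C (X (Sum.inr i) : MvPolynomial (K4 r) S)) ^ 2)))) :
        MvPolynomial (Fin r) (MvPolynomial (K4 r) S)) =
      C ((∏ i ∈ Finset.univ \ T, (-2 * X (Sum.inl i) : MvPolynomial (K4 r) S)) *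
        ∏ j : Fin r, (-2 * lin (x4 x E (δ.1 + j.1)))) *
      ((lin fun _ => 1) ^ (r - k) * ∏ i ∈ T, (-((X i + C (X (Sum.inr i) : MvPolynomial (K4 r) S)) ^ 2))) := by
    simp only [map_mul, map_prod, map_neg, map_ofNat]
    ring
  rw [h4, cf_C_mul]
  have h5 := cf_linked (S := MvPolynomial (K4 r) S) (fun i : Fin r => X (Sum.inr i)) T
  rw [Fintype.card_fin, hT] at h5
  rw [h5]
  have h6 : (((∏ i ∈ Finset.univ \ T, (-2 * X (Sum.inl i) : MvPolynomial (K4 r) S)) *
        ∏ j : Fin r, (-2 * lin (x4 x E (δ.1 + j.1)))) * (((r - k).factorial) *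
        ∏ i ∈ T, (-2 * X (Sum.inr i) : MvPolynomial (K4 r) S)) : MvPolynomial (K4 r) S) = C (((r - k).factorial : S)) *
      ((∏ i ∈ Finset.univ \ T, (-2 * X (Sum.inl i) : MvPolynomial (K4 r) S)) *
        ((∏ i ∈ T, (-2 * X (Sum.inr i) : MvPolynomial (K4 r) S)) *
          ∏ j : Fin r, (-2 * lin (x4 x E (δ.1 + j.1))))) := by
    rw [map_natCast]
    ring
  rw [h6, cf_C_mul]

lemma cf_lin_top {D : Type} [Fintype D] [DecidableEq D] (A : D → D → S) :
    cf Finset.univ (∏ j, lin fun i => A i j) = ∑ e : D ≃ D, ∏ j, A (e j) j := by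
  have h1 := Perm.top_prod_linear (S := S) (I := D) (J := D) (fun j i => A i j)
  rw [cf_univ]
  exact h1

lemma step4 (x E : Fin r → ℕ → S) (δ : Fin (r + 1)) (k : ℕ) (hk : k ≤ r)
    (T : Finset (Fin r)) (hT : T.card = k) :
    cf Finset.univ
      ((∏ i ∈ Finset.univ \ T, (-2 * X (Sum.inl i) : MvPolynomial (K4 r) S)) *
        ((∏ i ∈ T, (-2 * X (Sum.inr i))) *
          ∏ j : Fin r, (-2 * lin (x4 x E (δ.1 + j.1))))) = (-2) ^ r * (-2) ^ r *
      ∑ e : Fin r ≃ Fin r, ∏ j, if e j ∈ T then x (e j) (δ + j.1) else E (e j) (δ + j.1) := by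
  have hc : (Finset.univ \ T).card = r - k := by
    rw [Finset.card_sdiff, Finset.inter_univ, Finset.card_univ, Fintype.card_fin, hT]
  have h1 : ((∏ i ∈ Finset.univ \ T, (-2 * X (Sum.inl i) : MvPolynomial (K4 r) S)) *
        ((∏ i ∈ T, (-2 * X (Sum.inr i))) *
          ∏ j : Fin r, (-2 * lin (x4 x E (δ.1 + j.1))))) =
      C ((-2) ^ r * (-2) ^ r) * ((∏ i ∈ (Finset.univ \ T).disjSum T, X i) *
        ∏ j : Fin r, lin (x4 x E (δ.1 + j.1))) := by
    rw [Finset.prod_disjSum, Finset.prod_mul_distrib, Finset.prod_mul_distrib,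
      Finset.prod_mul_distrib, Finset.prod_const, Finset.prod_const, Finset.prod_const, hc, hT,
      Finset.card_univ, Fintype.card_fin]
    have h2 : (C ((-2) ^ r * (-2) ^ r) : MvPolynomial (K4 r) S) =
        (-2) ^ (r - k) * (-2) ^ k * (-2) ^ r := by
      have h3 : ((-2) ^ (r - k) * (-2) ^ k : MvPolynomial (K4 r) S) = (-2) ^ r := by
        rw [← pow_add, Nat.sub_add_cancel hk]
      rw [h3]
      simp only [map_mul, map_pow, map_neg, map_ofNat]
    rw [h2]
    ring
  rw [h1, cf_C_mul, cf_prod_X_mul, if_pos (Finset.subset_univ _)]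
  congr 1
  have h3 : (Finset.univ : Finset (K4 r)) \ (Finset.univ \ T).disjSum T =
      (T ∩ Finset.univ).disjSum (Finset.univ \ T) := by
    ext j
    rcases j with j | j
    · rw [Finset.mem_sdiff, Finset.inl_mem_disjSum, Finset.inl_mem_disjSum]
      simp
    · rw [Finset.mem_sdiff, Finset.inr_mem_disjSum, Finset.inr_mem_disjSum]
      simp
  rw [h3]
  have h4 := cf_mix T (fun (i : Fin r) (j : Fin r) => x i (δ.1 + j.1))
    (fun i j => E i (δ.1 + j.1)) Finset.univ Finset.univ
  have h5 := cf_lin_top (fun i j : Fin r => if i ∈ T then x i (δ.1 + j.1) else E i (δ.1 + j.1))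
  rw [← h5, ← h4]
  rfl

/-- the value of the functional -/
lemma fun1_eq (x E : Fin r → ℕ → S) (δ : Fin (r + 1)) (k : ℕ) (hk : k ≤ r) :
    fun1 x E δ (lin (low vt) ^ (r - k) * lin (low vs) ^ k) =
      (r.factorial * ((r - k).factorial * ((-2) ^ r * (-2) ^ r))) * win x E δ k := by
  rw [step1 x E δ (lin (vt : K2 r → S) ^ (r - k) * lin (vs : K2 r → S) ^ k) _
    (by rw [map_mul, map_pow, map_pow, lin_low, lin_low, map_mul, map_pow, map_pow]),
    step2 x E δ k hk, win, mul_assoc, mul_assoc]
  refine congrArg (fun z => (r.factorial : S) * z) ?_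
  rw [Finset.mul_sum, Finset.mul_sum]
  refine Finset.sum_congr rfl fun T hT => ?_
  have hc := (Finset.mem_powersetCard.1 hT).2
  rw [step3 x E δ k T hc, step4 x E δ k hk T hc]

end matrix

end Pool.Agent.V7H63.Gad
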